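import Pool.Agent.T9h29.WQ.DVal

/-!
# Example D is log terminal (piece P3b)
-/

set_option autoImplicit false

namespace Pool.Agent.T9h29.WQ

open MvPowerSeries

universe u

section

variable {k : Type u} [Field k]

lemma two_A [CharP k 2] : (2 : A k) = 0 := by
  have h : (2 : k) = 0 := CharTwo.two_eq_zero
  have h2 : (C (2 : k) : A k) = 2 := map_ofNat _ 2
  rw [← h2, h, map_zero]

lemma two_K [CharP k 2] {K : Type u} [Field K] [Algebra k K] : (2 : K) = 0 := by
  have h : (2 : k) = 0 := CharTwo.two_eq_zero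
  have h2 : algebraMap k K 2 = 2 := map_ofNat _ 2
  rw [← h2, h, map_zero]

lemma Artin.sz {σ : A k ≃ₐ[k] A k} {x y a b : A k} [CharP k 2] (h : Artin σ x y a b)
    (ha : σ a = a) (hb : σ b = b) : σ (a * X 1 + b * X 0) = a * X 1 + b * X 0 := by
  rw [map_add, map_mul, map_mul, h.su, h.sv, ha, hb]
  linear_combination (a * b) * (two_A (k := k))

/-- `z ^ 2 + a b z + a ^ 2 y + b ^ 2 x = 0` -/
lemma Artin.eqn {σ : A k ≃ₐ[k] A k} {x y a b : A k} [CharP k 2] (h : Artin σ x y a b) :
    (a * X 1 + b * X 0) ^ 2 + a * b * (a * X 1 + b * X 0) + a ^ 2 * y + b ^ 2 * x = 0 := by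
  have hx := h.hx
  have hy := h.hy
  linear_combination (-a ^ 2) * hy - b ^ 2 * hx +
    (a ^ 2 * y + b ^ 2 * x + a * b * X 0 * X 1) * (two_A (k := k))

/-- a prime containing `x, y` is the maximal ideal -/
lemma Artin.maximal (h1b : StmtP1b.{u}) {σ : A k ≃ₐ[k] A k} (hσ : ∀ f, σ (σ f) = f)
    {x y a b c d c' d' : A k} [CharP k 2] (h : Artin σ x y a b)
    (hc : a = x * c + y * d) (hd : b = x * c' + y * d')
    (P : Ideal (invariants σ)) (hP : P.IsPrime) (hx : (⟨x, h.sx⟩ : invariants σ) ∈ P)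
    (hy : (⟨y, h.sy⟩ : invariants σ) ∈ P) : P.IsMaximal := by
  have h2 := two_A (k := k)
  -- every nonunit is in `P`
  have key : ∀ f : invariants σ, ¬ IsUnit f → f ∈ P := by
    intro f hf
    have h3 : ¬ IsUnit (f : A k) := fun h4 => hf (isUnit_inv σ f.2 h4)
    have h4 : (f : A k) ∈ mm k := (IsLocalRing.mem_maximalIdeal _).2 h3
    rw [(h1b k).1, Ideal.mem_span_pair] at h4
    obtain ⟨p, q, hpq⟩ := h4
    have hu : X 0 ^ 2 = x * (1 + c * X 0) + y * (d * X 0) := by
      linear_combination -h.hx + X 0 * hc - X 0 * a * h2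
    have hv : X 1 ^ 2 = x * (c' * X 1) + y * (1 + d' * X 1) := by
      linear_combination -h.hy + X 1 * hd - X 1 * b * h2
    set F := p ^ 2 * (1 + c * X 0) + q ^ 2 * (c' * X 1) with hF
    set G := p ^ 2 * (d * X 0) + q ^ 2 * (1 + d' * X 1) with hG
    have hf2 : (f : A k) ^ 2 = x * F + y * G := by
      rw [hF, hG, ← hpq]
      linear_combination p ^ 2 * hu + q ^ 2 * hv + p * q * X 0 * X 1 * h2
    have hf2' : (f : A k) ^ 2 = x * σ F + y * σ G := by
      have h5 := congrArg σ hf2
      rw [map_pow, map_add, map_mul, map_mul, h.sx, h.sy] at h5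
      rw [← h5]; congr 1; exact f.2.symm
    have e1 : σ (F * σ F) = F * σ F := by rw [map_mul, hσ]; ring
    have e2 : σ (F * σ G + G * σ F) = F * σ G + G * σ F := by
      rw [map_add, map_mul, map_mul, hσ, hσ]; ring
    have e3 : σ (G * σ G) = G * σ G := by rw [map_mul, hσ]; ring
    have h6 : f ^ 4 = ⟨x, h.sx⟩ * (⟨x, h.sx⟩ * ⟨F * σ F, e1⟩ + ⟨y, h.sy⟩ * ⟨F * σ G + G * σ F, e2⟩)
        + ⟨y, h.sy⟩ * (⟨y, h.sy⟩ * ⟨G * σ G, e3⟩) := by
      apply Subtype.ext
      change (f : A k) ^ 4 = x * (x * (F * σ F) + y * (F * σ G + G * σ F)) + y * (y * (G * σ G))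
      calc (f : A k) ^ 4 = (f : A k) ^ 2 * (f : A k) ^ 2 := by ring
        _ = (x * F + y * G) * (x * σ F + y * σ G) := by rw [← hf2, ← hf2']
        _ = _ := by ring
    have h7 : f ^ 4 ∈ P := by
      rw [h6]
      exact P.add_mem (P.mul_mem_right _ hx) (P.mul_mem_right _ hy)
    exact hP.mem_of_pow_mem 4 h7
  constructor
  constructor
  · exact hP.ne_top
  · intro Q hQ
    by_contra hcon
    obtain ⟨hle, hne⟩ := hQ.le, hQ
    have : ∃ g ∈ Q, g ∉ P := by
      by_contra h8
      push Not at h8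
      exact absurd (lt_of_lt_of_le hQ h8) (lt_irrefl _)
    obtain ⟨g, hg, hgP⟩ := this
    have hgu : IsUnit g := by
      by_contra h8
      exact hgP (key g h8)
    exact hcon (Ideal.eq_top_of_isUnit_mem _ hg hgu)

lemma X_ne (i : Fin 2) : (X i : A k) ≠ 0 := by
  intro h
  have := congrArg (coeff (Finsupp.single i 1)) h
  simp [coeff_X] at this

lemma one_add_X_ne (i : Fin 2) : (1 + X i : A k) ≠ 0 := by
  intro h
  have := congrArg constantCoeff h
  simp at this

lemma Artin.x_ne {σ : A k ≃ₐ[k] A k} {x y a b : A k} (h : Artin σ x y a b)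
    (ha : x = 0 → a = 0) : x ≠ 0 := by
  intro h0
  have h1 := h.hx
  rw [h0, ha h0, zero_mul, add_zero] at h1
  exact X_ne (k := k) 0 (pow_eq_zero_iff (two_ne_zero) |>.1 h1.symm)

lemma Artin.y_ne {σ : A k ≃ₐ[k] A k} {x y a b : A k} (h : Artin σ x y a b)
    (hb : y = 0 → b = 0) : y ≠ 0 := by
  intro h0
  have h1 := h.hy
  rw [h0, hb h0, zero_mul, add_zero] at h1
  exact X_ne (k := k) 1 (pow_eq_zero_iff (two_ne_zero) |>.1 h1.symm)

lemma toK_div_pow {B : Type u} [CommRing B] [IsDomain B] {P : Ideal B} : True := trivial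

/-- Hamiltonian derivations preserve the local rings -/
lemma ham_preserves (h0c : StmtP0c.{u}) (σ : A k ≃ₐ[k] A k) (w b : A k)
    (hw : ∀ f g, σ (br w f g) = br w (σ f) (σ g)) (hb : σ b = b)
    (D : Derivation k (FractionRing (invariants σ)) (FractionRing (invariants σ)))
    (hD : ∀ (a : A k) (ha : σ a = a) (hc : σ (br w a b) = br w a b),
        D (toK σ a ha) = toK σ (br w a b) hc) (P : Ideal (invariants σ)) (hP : P.IsPrime) :
    Preserves k (localRing P) D := by
  apply h0c k (invariants σ) D _ P hP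
  intro a
  have hc : σ (br w (a : A k) b) = br w (a : A k) b := by
    rw [hw, hb]; congr 1; exact a.2
  exact ⟨⟨br w (a : A k) b, hc⟩, hD a a.2 hc⟩

lemma pd_mul (i : Fin 2) (f g : A k) :
    pderiv k i (f * g) = f * pderiv k i g + g * pderiv k i f := by
  rw [Derivation.leibniz]; rfl

lemma pd_pow (i : Fin 2) (f : A k) (n : ℕ) :
    pderiv k i (f ^ n) = n * f ^ (n - 1) * pderiv k i f := by
  rw [Derivation.leibniz_pow]; simp [mul_assoc]

theorem p3b (h0a : StmtP0a.{u}) (h0b : StmtP0b.{u}) (h0c : StmtP0c.{u}) (h1b : StmtP1b.{u}) :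
    StmtP3b.{u} := by
  intro k _ _ _ σ hσ x y h
  have h2 : (2 : A k) = 0 := two_A (k := k)
  have h2K : (2 : FractionRing (invariants σ)) = 0 := two_K (k := k)
  have hz : σ (x * X 1 + y * X 0) = x * X 1 + y * X 0 := h.sz h.sx h.sy
  have hF := h.eqn
  have hx0 := h.x_ne id
  have hy0 := h.y_ne id
  set z := x * X 1 + y * X 0 with hzdef
  -- derivatives
  have xu : pderiv k 0 x * (1 + X 0) = x := by
    have h3 := congrArg (pderiv k 0) h.hx
    rw [map_add, pd_pow, pd_mul, pderiv_X_self] at h3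
    push_cast at h3
    linear_combination h3 + (X 0 * pderiv k 0 x + X 0) * h2
  have xv : pderiv k 1 x = 0 := by
    have h3 := congrArg (pderiv k 1) h.hx
    rw [map_add, pd_pow, pd_mul, pderiv_X_of_ne (by decide)] at h3
    have h4 : pderiv k 1 x * (1 + X 0) = 0 := by
      linear_combination h3 + (X 0 * pderiv k 1 x) * h2
    exact (mul_eq_zero.1 h4).resolve_right (one_add_X_ne 0)
  have yv : pderiv k 1 y * (1 + X 1) = y := by
    have h3 := congrArg (pderiv k 1) h.hy
    rw [map_add, pd_pow, pd_mul, pderiv_X_self] at h3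
    push_cast at h3
    linear_combination h3 + (X 1 * pderiv k 1 y + X 1) * h2
  have yu : pderiv k 0 y = 0 := by
    have h3 := congrArg (pderiv k 0) h.hy
    rw [map_add, pd_pow, pd_mul, pderiv_X_of_ne (by decide)] at h3
    have h4 : pderiv k 0 y * (1 + X 1) = 0 := by
      linear_combination h3 + (X 1 * pderiv k 0 y) * h2
    exact (mul_eq_zero.1 h4).resolve_right (one_add_X_ne 1)
  have zu : pderiv k 0 z = X 1 * pderiv k 0 x + y := by
    rw [hzdef, map_add, pd_mul, pd_mul, pderiv_X_self, pderiv_X_of_ne (by decide), yu]; ring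
  have zv : pderiv k 1 z = x + X 0 * pderiv k 1 y := by
    rw [hzdef, map_add, pd_mul, pd_mul, pderiv_X_self, pderiv_X_of_ne (by decide), xv]; ring
  set w : A k := (1 + X 0) * (1 + X 1) with hw
  have bxy : br w x y = x * y := by
    rw [br, xv, yu, hw]
    linear_combination (pderiv k 1 y * (1 + X 1)) * xu + x * yv
  have bxz : br w x z = x * (x + z) := by
    rw [br, xv, zv, hw, hzdef]
    linear_combination (1 + X 1) * (x + X 0 * pderiv k 1 y) * xu + x * X 0 * yv
  have byz : br w y z = y * (y + z) := by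
    rw [br, yu, zu, hw, hzdef]
    linear_combination (-(1 + X 0) * (X 1 * pderiv k 0 x + y)) * yv - y * X 1 * xu
      - (y * (y + x * X 1 + y * X 0)) * h2
  have bsymm : ∀ f g : A k, br w f g = - br w g f := by
    intro f g; rw [br, br]; ring
  have hsw : σ w = (1 + (X 0 + x)) * (1 + (X 1 + y)) := by
    rw [hw, map_mul, map_add, map_add, map_one, h.su, h.sv]
  have heq : ∀ f g, σ (br w f g) = br w (σ f) (σ g) := by
    apply h0a k σ w
    rw [hsw, h.su, h.sv, br, map_add, map_add, map_add, map_add, xv, yu, pderiv_X_self,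
      pderiv_X_self, pderiv_X_of_ne (by decide), pderiv_X_of_ne (by decide), hw]
    linear_combination (1 + X 1) * (1 + pderiv k 1 y) * xu + (1 + X 0 + x) * yv
  -- the fraction field
  obtain ⟨Dx, hDx⟩ := h0b k σ w heq x h.sx
  obtain ⟨Dy, hDy⟩ := h0b k σ w heq y h.sy
  obtain ⟨Dz, hDz⟩ := h0b k σ w heq z hz
  have pDx := ham_preserves h0c σ w x heq h.sx Dx hDx
  have pDy := ham_preserves h0c σ w y heq h.sy Dy hDy
  have pDz := ham_preserves h0c σ w z heq hz Dz hDz
  set xB : invariants σ := ⟨x, h.sx⟩ with hxB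
  set yB : invariants σ := ⟨y, h.sy⟩ with hyB
  set zB : invariants σ := ⟨z, hz⟩ with hzB
  set ι := algebraMap (invariants σ) (FractionRing (invariants σ)) with hι
  have hinj : Function.Injective ι := IsFractionRing.injective _ _
  have hFB : zB ^ 2 + xB * yB * zB + xB ^ 2 * yB + yB ^ 2 * xB = 0 := Subtype.ext hF
  have hFK : ι zB ^ 2 + ι xB * ι yB * ι zB + ι xB ^ 2 * ι yB + ι yB ^ 2 * ι xB = 0 := by
    rw [← map_zero ι, ← hFB]; simp only [map_add, map_mul, map_pow]
  have hxB0 : xB ≠ 0 := fun h3 => hx0 (congrArg Subtype.val h3)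
  have hyB0 : yB ≠ 0 := fun h3 => hy0 (congrArg Subtype.val h3)
  have hxK0 : ι xB ≠ 0 := by rw [Ne, ← map_zero ι]; exact fun h3 => hxB0 (hinj h3)
  have hyK0 : ι yB ≠ 0 := by rw [Ne, ← map_zero ι]; exact fun h3 => hyB0 (hinj h3)
  -- values of the Hamiltonian derivations
  have vxx : Dx (ι xB) = 0 := by
    have h3 : br w x x = 0 := by rw [br]; ring
    have h4 := hDx x h.sx (by rw [h3, map_zero])
    change Dx (ι xB) = _ at h4
    rw [h4, toK_eq_zero]; exact h3
  have vyy : Dy (ι yB) = 0 := by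
    have h3 : br w y y = 0 := by rw [br]; ring
    have h4 := hDy y h.sy (by rw [h3, map_zero])
    change Dy (ι yB) = _ at h4
    rw [h4, toK_eq_zero]; exact h3
  have vzz : Dz (ι zB) = 0 := by
    have h3 : br w z z = 0 := by rw [br]; ring
    have h4 := hDz z hz (by rw [h3, map_zero])
    change Dz (ι zB) = _ at h4
    rw [h4, toK_eq_zero]; exact h3
  have vxy : Dy (ι xB) = ι (xB * yB) := by
    have h3 : br w x y = ((xB * yB : invariants σ) : A k) := bxy
    have h4 := hDy x h.sx (by rw [heq, h.sx, h.sy])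
    change Dy (ι xB) = _ at h4
    rw [h4]; unfold toK; congr 1; exact Subtype.ext h3
  have vyx : Dx (ι yB) = ι (-(xB * yB)) := by
    have h3 : br w y x = ((-(xB * yB) : invariants σ) : A k) := by rw [bsymm, bxy]; rfl
    have h4 := hDx y h.sy (by rw [heq, h.sx, h.sy])
    change Dx (ι yB) = _ at h4
    rw [h4]; unfold toK; congr 1; exact Subtype.ext h3
  have vxz : Dz (ι xB) = ι (xB * (xB + zB)) := by
    have h3 : br w x z = ((xB * (xB + zB) : invariants σ) : A k) := bxz
    have h4 := hDz x h.sx (by rw [heq, h.sx, hz])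
    change Dz (ι xB) = _ at h4
    rw [h4]; unfold toK; congr 1; exact Subtype.ext h3
  have vzx : Dx (ι zB) = ι (-(xB * (xB + zB))) := by
    have h3 : br w z x = ((-(xB * (xB + zB)) : invariants σ) : A k) := by rw [bsymm, bxz]; rfl
    have h4 := hDx z hz (by rw [heq, h.sx, hz])
    change Dx (ι zB) = _ at h4
    rw [h4]; unfold toK; congr 1; exact Subtype.ext h3
  have vyz : Dz (ι yB) = ι (yB * (yB + zB)) := by
    have h3 : br w y z = ((yB * (yB + zB) : invariants σ) : A k) := byz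
    have h4 := hDz y h.sy (by rw [heq, h.sy, hz])
    change Dz (ι yB) = _ at h4
    rw [h4]; unfold toK; congr 1; exact Subtype.ext h3
  have vzy : Dy (ι zB) = ι (-(yB * (yB + zB))) := by
    have h3 : br w z y = ((-(yB * (yB + zB)) : invariants σ) : A k) := by rw [bsymm, byz]; rfl
    have h4 := hDy z hz (by rw [heq, h.sy, hz])
    change Dy (ι zB) = _ at h4
    rw [h4]; unfold toK; congr 1; exact Subtype.ext h3
  -- differentiating the equation
  have hdF : ∀ D : Derivation k (FractionRing (invariants σ)) (FractionRing (invariants σ)),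
      ι xB * ι yB * D (ι zB) + ι yB * (ι yB + ι zB) * D (ι xB) +
        ι xB * (ι xB + ι zB) * D (ι yB) = 0 := by
    intro D
    have h3 := congrArg D hFK
    simp only [map_add, Derivation.leibniz, smul_eq_mul, pow_two, map_zero] at h3
    linear_combination h3 - (ι zB * D (ι zB) + ι xB * ι yB * D (ι xB) +
      ι xB * ι yB * D (ι yB)) * h2K
  have hmul : ι (xB * yB) = ι xB * ι yB := map_mul _ _ _
  refine ⟨1, one_pos, (ι (xB * yB))⁻¹, ι xB, ι yB, ?_, ?_⟩
  · intro P hP hP0 hPm
    have hnot : ¬ (xB ∈ P ∧ yB ∈ P) := by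
      rintro ⟨h3, h4⟩
      exact hPm (Artin.maximal h1b hσ h (c := 1) (d := 0) (c' := 0) (d' := 1)
        (by ring) (by ring) P hP h3 h4)
    have hform : ∀ D₁ D₂ : Derivation k (FractionRing (invariants σ)) (FractionRing (invariants σ)),
        form k 1 (ι (xB * yB))⁻¹ (ι xB) (ι yB) D₁ D₂ = J D₁ D₂ (ι xB) (ι yB) / ι (xB * yB) := by
      intro D₁ D₂
      rw [form, J, pow_one]; ring
    have hloc : ∀ f ∈ P.primeCompl, True := fun _ _ => trivial
    have hJP : ∀ D₁ D₂ : Derivation k (FractionRing (invariants σ)) (FractionRing (invariants σ)),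
        Preserves k (localRing P) D₁ → Preserves k (localRing P) D₂ → ∀ a b : invariants σ,
        J D₁ D₂ (ι a) (ι b) ∈ localRing P := by
      intro D₁ D₂ h3 h4 a b
      exact loc_sub hP (loc_mul hP (h3 _ (loc_of hP a)) (h4 _ (loc_of hP b)))
        (loc_mul hP (h3 _ (loc_of hP b)) (h4 _ (loc_of hP a)))
    by_cases hxP : xB ∈ P
    · -- `x ∈ P`, `y ∉ P`
      have hyP : yB ∉ P := fun h3 => hnot ⟨hxP, h3⟩
      have hzP : zB ∈ P := by
        apply hP.mem_of_pow_mem 2
        have : zB ^ 2 = xB * (-(yB * zB) - xB * yB - yB ^ 2) := by linear_combination hFB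
        rw [this]; exact P.mul_mem_right _ hxP
      have hsP : yB * (yB + zB) ∉ P := by
        intro h3
        rcases hP.mem_or_mem h3 with h4 | h4
        · exact hyP h4
        · exact hyP ((P.add_mem_iff_left hzP).1 h4)
      have hs0 : ι (yB * (yB + zB)) ≠ 0 := by
        rw [Ne, ← map_zero ι]; exact fun h3 => hsP (hinj h3 ▸ P.zero_mem)
      have hform2 : ∀ D₁ D₂ : Derivation k (FractionRing (invariants σ))
          (FractionRing (invariants σ)),
          form k 1 (ι (xB * yB))⁻¹ (ι xB) (ι yB) D₁ D₂ =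
            J D₁ D₂ (ι yB) (ι zB) / ι (yB * (yB + zB)) := by
        intro D₁ D₂
        rw [hform, div_eq_div_iff (by rw [hmul]; exact mul_ne_zero hxK0 hyK0) hs0, hmul,
          map_mul, map_add]
        unfold J
        linear_combination D₂ (ι yB) * hdF D₁ - D₁ (ι yB) * hdF D₂
      refine ⟨fun D₁ D₂ h3 h4 => ?_, Dy, Dz, pDy P hP, pDz P hP, ?_⟩
      · rw [hform2]; exact loc_div hP (hJP D₁ D₂ h3 h4 yB zB) hsP
      · have hval : form k 1 (ι (xB * yB))⁻¹ (ι xB) (ι yB) Dy Dz = ι (yB * (yB + zB)) := by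
          rw [hform2, J, vyy, vzz, vzy, vyz, map_neg, zero_mul, zero_sub, ← neg_mul, neg_neg,
            mul_div_assoc, div_self hs0, mul_one]
        rw [hval]
        exact ⟨hs0, loc_inv hP hsP⟩
    · by_cases hyP : yB ∈ P
      · have hzP : zB ∈ P := by
          apply hP.mem_of_pow_mem 2
          have : zB ^ 2 = yB * (-(xB * zB) - xB ^ 2 - yB * xB) := by linear_combination hFB
          rw [this]; exact P.mul_mem_right _ hyP
        have hsP : xB * (xB + zB) ∉ P := by
          intro h3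
          rcases hP.mem_or_mem h3 with h4 | h4
          · exact hxP h4
          · exact hxP ((P.add_mem_iff_left hzP).1 h4)
        have hs0 : ι (xB * (xB + zB)) ≠ 0 := by
          rw [Ne, ← map_zero ι]; exact fun h3 => hsP (hinj h3 ▸ P.zero_mem)
        have hform2 : ∀ D₁ D₂ : Derivation k (FractionRing (invariants σ))
            (FractionRing (invariants σ)),
            form k 1 (ι (xB * yB))⁻¹ (ι xB) (ι yB) D₁ D₂ =
              J D₁ D₂ (ι zB) (ι xB) / ι (xB * (xB + zB)) := by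
          intro D₁ D₂
          rw [hform, div_eq_div_iff (by rw [hmul]; exact mul_ne_zero hxK0 hyK0) hs0, hmul,
            map_mul, map_add]
          unfold J
          linear_combination D₁ (ι xB) * hdF D₂ - D₂ (ι xB) * hdF D₁
        refine ⟨fun D₁ D₂ h3 h4 => ?_, Dz, Dx, pDz P hP, pDx P hP, ?_⟩
        · rw [hform2]; exact loc_div hP (hJP D₁ D₂ h3 h4 zB xB) hsP
        · have hval : form k 1 (ι (xB * yB))⁻¹ (ι xB) (ι yB) Dz Dx = ι (xB * (xB + zB)) := by
            rw [hform2, J, vzz, vxx, vzx, vxz, map_neg, zero_mul, zero_sub, mul_neg, neg_neg,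
              mul_div_assoc, div_self hs0, mul_one]
          rw [hval]
          exact ⟨hs0, loc_inv hP hsP⟩
      · have hsP : xB * yB ∉ P := fun h3 => (hP.mem_or_mem h3).elim hxP hyP
        have hs0 : ι (xB * yB) ≠ 0 := by rw [hmul]; exact mul_ne_zero hxK0 hyK0
        refine ⟨fun D₁ D₂ h3 h4 => ?_, Dx, Dy, pDx P hP, pDy P hP, ?_⟩
        · rw [hform]; exact loc_div hP (hJP D₁ D₂ h3 h4 xB yB) hsP
        · have hval : form k 1 (ι (xB * yB))⁻¹ (ι xB) (ι yB) Dx Dy = ι (xB * yB) := by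
            rw [hform, J, vxx, vyy, vyx, vxy, map_neg, zero_mul, zero_sub, ← neg_mul, neg_neg,
              mul_div_assoc, div_self hs0, mul_one]
          rw [hval]
          exact ⟨hs0, loc_inv hP hsP⟩
  · intro R hR D₁ D₂ hD₁ hD₂ π hπ
    have hnu : ∀ (i : Fin 2) (f c : A k), f = X i * c → ¬ IsUnit f := by
      intro i f c hfc hu
      rw [hfc] at hu
      have h3 := (isUnit_of_mul_isUnit_left hu).map (constantCoeff (σ := Fin 2) (R := k))
      rw [constantCoeff_X] at h3
      exact not_isUnit_zero h3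
    have hx1 : ¬ IsUnit xB := by
      intro h3
      exact hnu 0 x (X 0 + x) (by linear_combination h.hx) (h3.map (invariants σ).subtype)
    have hy1 : ¬ IsUnit yB := by
      intro h3
      exact hnu 1 y (X 1 + y) (by linear_combination h.hy) (h3.map (invariants σ).subtype)
    have vx1 : R.valuation (ι xB) < 1 := (R.mem_nonunits_iff).1 (hR.centre _ hx1)
    have vy1 : R.valuation (ι yB) < 1 := (R.mem_nonunits_iff).1 (hR.centre _ hy1)
    have hD₁' : ∀ f, R.valuation f ≤ 1 → R.valuation (D₁ f) ≤ 1 := by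
      intro f hf
      rw [R.valuation_le_one_iff] at hf ⊢
      exact hD₁ f hf
    have hD₂' : ∀ f, R.valuation f ≤ 1 → R.valuation (D₂ f) ≤ 1 := by
      intro f hf
      rw [R.valuation_le_one_iff] at hf ⊢
      exact hD₂ f hf
    have hΦ : R.valuation (J D₁ D₂ (ι xB) (ι yB) / (ι xB * ι yB)) ≤ 1 := by
      rcases le_total (R.valuation (ι yB)) (R.valuation (ι xB)) with hle | hle
      · obtain ⟨y₁, hy₁⟩ : ∃ y₁, ι yB = ι xB * y₁ := ⟨ι yB / ι xB, by field_simp⟩
        obtain ⟨z₁, hz₁⟩ : ∃ z₁, ι zB = ι xB * z₁ := ⟨ι zB / ι xB, by field_simp⟩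
        have hG : z₁ ^ 2 + ι xB * y₁ * z₁ + ι xB * y₁ + ι xB * y₁ ^ 2 = 0 := by
          have h3 : ι xB ^ 2 * (z₁ ^ 2 + ι xB * y₁ * z₁ + ι xB * y₁ + ι xB * y₁ ^ 2) = 0 := by
            rw [hy₁, hz₁] at hFK; linear_combination hFK
          exact (mul_eq_zero.1 h3).resolve_left (pow_ne_zero 2 hxK0)
        have hv1 : R.valuation y₁ ≤ 1 := by
          rw [hy₁, map_mul] at hle
          by_contra hcon
          push Not at hcon
          have hx' : 0 < R.valuation (ι xB) :=
            zero_lt_iff.2 ((Valuation.ne_zero_iff R.valuation).2 hxK0)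
          have h5 := mul_lt_mul_of_pos_left hcon hx'
          rw [mul_one] at h5
          exact absurd hle (not_le.2 h5)
        have hy10 : y₁ ≠ 0 := fun h3 => hyK0 (by rw [hy₁, h3, mul_zero])
        have := val_key R.valuation h2K hD₁' hD₂' (ι xB) y₁ z₁ vx1 hxK0 hy10 hv1 hG
        rwa [← hy₁] at this
      · obtain ⟨x₁, hx₁⟩ : ∃ x₁, ι xB = ι yB * x₁ := ⟨ι xB / ι yB, by field_simp⟩
        obtain ⟨z₁, hz₁⟩ : ∃ z₁, ι zB = ι yB * z₁ := ⟨ι zB / ι yB, by field_simp⟩
        have hG : z₁ ^ 2 + ι yB * x₁ * z₁ + ι yB * x₁ + ι yB * x₁ ^ 2 = 0 := by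
          have h3 : ι yB ^ 2 * (z₁ ^ 2 + ι yB * x₁ * z₁ + ι yB * x₁ + ι yB * x₁ ^ 2) = 0 := by
            rw [hx₁, hz₁] at hFK; linear_combination hFK
          exact (mul_eq_zero.1 h3).resolve_left (pow_ne_zero 2 hyK0)
        have hv1 : R.valuation x₁ ≤ 1 := by
          rw [hx₁, map_mul] at hle
          by_contra hcon
          push Not at hcon
          have hx' : 0 < R.valuation (ι yB) :=
            zero_lt_iff.2 ((Valuation.ne_zero_iff R.valuation).2 hyK0)
          have h5 := mul_lt_mul_of_pos_left hcon hx'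
          rw [mul_one] at h5
          exact absurd hle (not_le.2 h5)
        have hx10 : x₁ ≠ 0 := fun h3 => hxK0 (by rw [hx₁, h3, mul_zero])
        have := val_key R.valuation h2K hD₁' hD₂' (ι yB) x₁ z₁ vy1 hyK0 hx10 hv1 hG
        rw [← hx₁] at this
        have h6 : J D₁ D₂ (ι xB) (ι yB) / (ι xB * ι yB) =
            -(J D₁ D₂ (ι yB) (ι xB) / (ι yB * ι xB)) := by
          rw [J_swap, mul_comm (ι xB), neg_div]
        rw [h6, Valuation.map_neg]
        exact this
    have hfm : form k 1 (ι (xB * yB))⁻¹ (ι xB) (ι yB) D₁ D₂ =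
        J D₁ D₂ (ι xB) (ι yB) / (ι xB * ι yB) := by
      rw [form, J, pow_one, hmul]; ring
    rw [R.mem_nonunits_iff, hfm, map_mul, pow_one]
    exact mul_lt_one_of_lt_of_le ((R.mem_nonunits_iff).1 hπ) hΦ

end

end Pool.Agent.T9h29.WQ
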