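import Pool.Agent.T9h29.WQ.Loc

/-!
# Example D: the valuation argument
-/

set_option autoImplicit false

namespace Pool.Agent.T9h29.WQ

universe u

section val

variable {k : Type u} [Field k] {K : Type u} [Field K] [Algebra k K]
  {Γ : Type u} [LinearOrderedCommGroupWithZero Γ] (v : Valuation K Γ)
  (D₁ D₂ : Derivation k K K)

/-- the alternating biderivation -/
def J (a b : K) : K := D₁ a * D₂ b - D₁ b * D₂ a

lemma J_mul_left (a b c : K) : J D₁ D₂ (a * b) c = a * J D₁ D₂ b c + b * J D₁ D₂ a c := by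
  unfold J; simp only [Derivation.leibniz, smul_eq_mul]; ring

lemma J_mul_right (a b c : K) : J D₁ D₂ c (a * b) = a * J D₁ D₂ c b + b * J D₁ D₂ c a := by
  unfold J; simp only [Derivation.leibniz, smul_eq_mul]; ring

lemma J_self (a : K) : J D₁ D₂ a a = 0 := by
  unfold J; ring

lemma J_swap (a b : K) : J D₁ D₂ a b = - J D₁ D₂ b a := by
  unfold J; ring

lemma J_add_left (a b c : K) : J D₁ D₂ (a + b) c = J D₁ D₂ a c + J D₁ D₂ b c := by
  unfold J; simp only [map_add]; ring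

lemma J_one_left (c : K) : J D₁ D₂ 1 c = 0 := by
  unfold J; simp

variable {D₁ D₂}

lemma val_J (hD₁ : ∀ f, v f ≤ 1 → v (D₁ f) ≤ 1) (hD₂ : ∀ f, v f ≤ 1 → v (D₂ f) ≤ 1) {a b : K}
    (ha : v a ≤ 1) (hb : v b ≤ 1) : v (J D₁ D₂ a b) ≤ 1 := by
  unfold J
  refine (v.map_sub _ _).trans (max_le ?_ ?_) <;> rw [map_mul]
  · exact mul_le_one' (hD₁ _ ha) (hD₂ _ hb)
  · exact mul_le_one' (hD₁ _ hb) (hD₂ _ ha)

lemma val_key (h2 : (2 : K) = 0) (hD₁ : ∀ f, v f ≤ 1 → v (D₁ f) ≤ 1)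
    (hD₂ : ∀ f, v f ≤ 1 → v (D₂ f) ≤ 1) (x y₁ z₁ : K) (hx : v x < 1) (hx0 : x ≠ 0)
    (hy0 : y₁ ≠ 0) (hy : v y₁ ≤ 1)
    (hG : z₁ ^ 2 + x * y₁ * z₁ + x * y₁ + x * y₁ ^ 2 = 0) :
    v (J D₁ D₂ x (x * y₁) / (x * (x * y₁))) ≤ 1 := by
  set U := 1 + y₁ + z₁ with hU
  have hG' : z₁ ^ 2 = -(x * (y₁ * U)) := by rw [hU]; linear_combination hG
  -- `v z₁ < 1`
  have hz : v z₁ < 1 := by
    by_contra hcon
    push Not at hcon
    have hz0 : v z₁ ≠ 0 := fun h => by rw [h] at hcon; exact absurd hcon (by simp)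
    have h1 : v U ≤ v z₁ := by
      refine (v.map_add _ _).trans (max_le ((v.map_add _ _).trans (max_le ?_ ?_)) le_rfl)
      · rw [map_one]; exact hcon
      · exact hy.trans hcon
    have h3 : v z₁ ^ 2 = v x * (v y₁ * v U) := by
      rw [← map_pow, hG', Valuation.map_neg, map_mul, map_mul]
    have h4 : v x * (v y₁ * v U) ≤ v x * v z₁ := by
      gcongr
      calc v y₁ * v U ≤ 1 * v z₁ := by gcongr
        _ = v z₁ := one_mul _
    have h5 : v x * v z₁ < 1 * v z₁ := mul_lt_mul_of_pos_right hx (zero_lt_iff.2 hz0)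
    rw [one_mul] at h5
    have h6 : v z₁ ^ 2 < v z₁ := by rw [h3]; exact h4.trans_lt h5
    have h7 : v z₁ ≤ v z₁ ^ 2 := by
      rw [pow_two]
      calc v z₁ = 1 * v z₁ := (one_mul _).symm
        _ ≤ v z₁ * v z₁ := by gcongr
    exact absurd h6 (not_lt.2 h7)
  have h1z : v (1 + z₁) = 1 := by
    rw [Valuation.map_add_eq_of_lt_left v (by rw [map_one]; exact hz), map_one]
  have hz' : v z₁ ≤ 1 := hz.le
  have hJ := fun {a b : K} (ha : v a ≤ 1) (hb : v b ≤ 1) => val_J v hD₁ hD₂ ha hb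
  have hxz : x * (1 + z₁) ≠ 0 := by
    apply mul_ne_zero hx0
    intro h; rw [h, map_zero] at h1z; exact zero_ne_one h1z
  set Φ := J D₁ D₂ x (x * y₁) / (x * (x * y₁)) with hΦ
  have hxx : J D₁ D₂ x (x * y₁) = x * J D₁ D₂ x y₁ := by
    rw [J_mul_right, J_self, mul_zero, add_zero]
  have hΦ1 : Φ * (x * y₁) = J D₁ D₂ x y₁ := by
    rw [hΦ, hxx]; field_simp
  -- the differential of the equation
  have hdG : ∀ D : Derivation k K K, y₁ * U * D x + x * (1 + z₁) * D y₁ + x * y₁ * D z₁ = 0 := by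
    intro D
    have h3 := congrArg D hG
    simp only [map_add, Derivation.leibniz, smul_eq_mul, pow_two, map_zero] at h3
    rw [hU]
    linear_combination h3 - (z₁ * D z₁ + x * y₁ * D y₁) * h2
  have hβ : Φ * (x * (1 + z₁)) = J D₁ D₂ z₁ x := by
    have h3 : x * y₁ * J D₁ D₂ z₁ x = x * (1 + z₁) * J D₁ D₂ x y₁ := by
      unfold J
      linear_combination D₂ x * hdG D₁ - D₁ x * hdG D₂
    have h4 : x * y₁ ≠ 0 := mul_ne_zero hx0 hy0
    apply mul_left_cancel₀ h4
    rw [h3, ← hΦ1]; ring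
  have hα : Φ * (y₁ * U) = J D₁ D₂ y₁ z₁ := by
    have h3 : x * y₁ * J D₁ D₂ y₁ z₁ = y₁ * U * J D₁ D₂ x y₁ := by
      unfold J
      linear_combination D₁ y₁ * hdG D₂ - D₂ y₁ * hdG D₁
    have h4 : x * y₁ ≠ 0 := mul_ne_zero hx0 hy0
    apply mul_left_cancel₀ h4
    rw [h3, ← hΦ1]; ring
  have hsq : v z₁ ^ 2 = v x * v (y₁ * U) := by
    rw [← map_pow, hG', Valuation.map_neg, map_mul]
  rcases le_or_gt (v (y₁ * U)) (v x) with hc | hc
  · -- `z₁ = x z₂`
    have h3 : v z₁ ≤ v x := by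
      by_contra hcon
      push Not at hcon
      have h4 : v x * v (y₁ * U) < v z₁ ^ 2 := by
        rw [pow_two]
        calc v x * v (y₁ * U) ≤ v x * v x := by gcongr
          _ < v z₁ * v z₁ := mul_lt_mul'' hcon hcon zero_le' zero_le'
      exact absurd hsq.symm h4.ne
    obtain ⟨z₂, hz₂⟩ : ∃ z₂, z₁ = x * z₂ := ⟨z₁ / x, by field_simp⟩
    have h4 : v z₂ ≤ 1 := by
      rw [hz₂, map_mul] at h3
      have hx' : 0 < v x := zero_lt_iff.2 ((Valuation.ne_zero_iff v).2 hx0)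
      by_contra hcon
      push Not at hcon
      have : v x * 1 < v x * v z₂ := mul_lt_mul_of_pos_left hcon hx'
      rw [mul_one] at this
      exact absurd h3 (not_le.2 this)
    have h5 : Φ * (1 + z₁) = J D₁ D₂ z₂ x := by
      apply mul_left_cancel₀ hx0
      have h6 : J D₁ D₂ z₁ x = x * J D₁ D₂ z₂ x := by
        rw [hz₂, J_mul_left, J_self, mul_zero, add_zero]
      rw [← h6, ← hβ]; ring
    have h6 : v Φ = v (J D₁ D₂ z₂ x) := by rw [← h5, map_mul, h1z, mul_one]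
    rw [h6]; exact hJ h4 hx.le
  · have hc0 : y₁ * U ≠ 0 := by
      intro h; rw [h, map_zero] at hc; exact absurd hc (by simp)
    have hU0 : U ≠ 0 := right_ne_zero_of_mul hc0
    have h3 : v z₁ < v (y₁ * U) := by
      by_contra hcon
      push Not at hcon
      have h4 : v x * v (y₁ * U) < v z₁ ^ 2 := by
        rw [pow_two]
        calc v x * v (y₁ * U) < v (y₁ * U) * v (y₁ * U) :=
              mul_lt_mul_of_pos_right hc (zero_lt_iff.2 ((Valuation.ne_zero_iff v).2 hc0))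
          _ ≤ v z₁ * v z₁ := by gcongr
      exact absurd hsq.symm h4.ne
    rcases lt_or_eq_of_le hy with hy1 | hy1
    · -- `y₁` in the maximal ideal
      have hvU : v U = 1 := by
        have h4 : v (y₁ + z₁) < 1 := (v.map_add _ _).trans_lt (max_lt hy1 hz)
        rw [hU, add_assoc, Valuation.map_add_eq_of_lt_left v (by rw [map_one]; exact h4), map_one]
      obtain ⟨z₂, hz₂⟩ : ∃ z₂, z₁ = y₁ * z₂ := ⟨z₁ / y₁, by field_simp⟩
      have h4 : v z₂ ≤ 1 := by
        rw [map_mul v y₁ U, hvU, hz₂, map_mul] at h3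
        have hx' : 0 < v y₁ := zero_lt_iff.2 ((Valuation.ne_zero_iff v).2 hy0)
        by_contra hcon
        push Not at hcon
        have : v y₁ * 1 < v y₁ * v z₂ := mul_lt_mul_of_pos_left hcon hx'
        exact absurd h3 (not_lt.2 this.le)
      have h5 : Φ * U = J D₁ D₂ y₁ z₂ := by
        apply mul_left_cancel₀ hy0
        have h6 : J D₁ D₂ y₁ z₁ = y₁ * J D₁ D₂ y₁ z₂ := by
          rw [hz₂, J_mul_right, J_self, mul_zero, add_zero]
        rw [← h6, ← hα]; ring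
      have h6 : v Φ = v (J D₁ D₂ y₁ z₂) := by rw [← h5, map_mul, hvU, mul_one]
      rw [h6]; exact hJ hy h4
    · -- `y₁` a unit
      have hvU : v U ≤ 1 := by
        refine (v.map_add _ _).trans (max_le ((v.map_add _ _).trans (max_le ?_ hy)) hz')
        rw [map_one]
      obtain ⟨z₂, hz₂⟩ : ∃ z₂, z₁ = U * z₂ := ⟨z₁ / U, by field_simp⟩
      have h4 : v z₂ ≤ 1 := by
        rw [map_mul v y₁ U, hy1, one_mul] at h3
        have h3' : v U * v z₂ < v U := by rw [← map_mul, ← hz₂]; exact h3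
        have hx' : 0 < v U := zero_lt_iff.2 ((Valuation.ne_zero_iff v).2 hU0)
        by_contra hcon
        push Not at hcon
        have : v U * 1 < v U * v z₂ := mul_lt_mul_of_pos_left hcon hx'
        rw [mul_one] at this
        exact absurd h3' (not_lt.2 this.le)
      have h7 : J D₁ D₂ y₁ z₁ = J D₁ D₂ U z₁ := by
        rw [hU, J_add_left, J_add_left, J_one_left, J_self]; ring
      have h5 : Φ * y₁ = J D₁ D₂ U z₂ := by
        apply mul_left_cancel₀ hU0
        have h6 : J D₁ D₂ U z₁ = U * J D₁ D₂ U z₂ := by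
          conv_lhs => rw [hz₂]
          rw [J_mul_right, J_self, mul_zero, add_zero]
        rw [← h6, ← h7, ← hα]; ring
      have h6 : v Φ = v (J D₁ D₂ U z₂) := by rw [← h5, map_mul, hy1, mul_one]
      rw [h6]; exact hJ hvU h4

end val

end Pool.Agent.T9h29.WQ
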