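import Mathlib

/-!
# Wild `ℤ/p`-quotients of the formal plane: definitions

`k` is a field (in the result: algebraically closed of characteristic `p`), `A k = k[[x, y]]`.
-/

set_option autoImplicit false

namespace Pool.Agent.T9h29.WQ

open MvPowerSeries

universe u

/-- The ring `k[[x, y]]`, with `x = X 0` and `y = X 1`. -/
abbrev A (k : Type u) [Field k] : Type u := MvPowerSeries (Fin 2) k

instance instIsDomainA (k : Type u) [Field k] : IsDomain (A k) := NoZeroDivisors.to_isDomain _

section action

variable {k : Type u} [Field k]

/-- The maximal ideal of `k[[x, y]]`. -/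
noncomputable abbrev mm (k : Type u) [Field k] : Ideal (A k) := IsLocalRing.maximalIdeal (A k)

lemma mm_le_comap (σ : A k ≃ₐ[k] A k) : mm k ≤ (mm k).comap (σ : A k →ₐ[k] A k) := by
  intro f hf
  rw [Ideal.mem_comap, IsLocalRing.mem_maximalIdeal, mem_nonunits_iff] at *
  intro h
  apply hf
  have h2 := h.map (σ.symm : A k →ₐ[k] A k)
  simpa using h2

/-- `σ` generates a faithful action of `ℤ/p` on `k[[x, y]]` whose only fixed point is the closed
point: no other prime ideal `q` contains all `σ f - f` (that is, `σ` lies in the inertia group of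
no other point). -/
structure IsWildAction (σ : A k ≃ₐ[k] A k) (p : ℕ) : Prop where
  order : orderOf σ = p
  free : ∀ q : Ideal (A k), q.IsPrime → (∀ f, σ f - f ∈ q) → q = mm k

/-- The number of Jordan blocks of the unipotent linear map `σ_*` induced by `σ` on the cotangent
space `𝔪 / 𝔪 ^ 2`, i.e. the dimension of the kernel of `σ_* - 1`. -/
noncomputable def jordanBlocks (σ : A k ≃ₐ[k] A k) : ℕ :=
  Module.finrank k (LinearMap.ker
    ((mm k).mapCotangent (mm k) (σ : A k →ₐ[k] A k) (mm_le_comap σ) - LinearMap.id))

/-- There are regular parameters `x, y` (generators of `𝔪`) in which `σ` is linear modulo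
`𝔪 ^ N`: `σ x` and `σ y` are congruent to `k`-linear combinations of `x` and `y`. -/
def IsLinearMod (σ : A k ≃ₐ[k] A k) (N : ℕ) : Prop :=
  ∃ x y : A k, Ideal.span {x, y} = mm k ∧ ∃ a b c d : k,
    σ x - (C a * x + C b * y) ∈ mm k ^ N ∧ σ y - (C c * x + C d * y) ∈ mm k ^ N

/-- `r` and `n` are the two numerical invariants of the action generated by `σ`: the number of
Jordan blocks on the cotangent space, and the largest integer `n` such that `σ` is linear modulo
`𝔪 ^ (n + 2)` in suitable regular parameters. -/
def HasInvariants (σ : A k ≃ₐ[k] A k) (r n : ℕ) : Prop :=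
  jordanBlocks σ = r ∧ IsGreatest {m : ℕ | IsLinearMod σ (m + 2)} n

/-- The ring of invariants of `σ`. -/
noncomputable def invariants (σ : A k ≃ₐ[k] A k) : Subalgebra k (A k) :=
  AlgHom.equalizer (σ : A k →ₐ[k] A k) (AlgHom.id k (A k))

end action

section logterminal

variable (k : Type u) [Field k]

/-- `D` maps `R` into `R`. If `K` is the fraction field of the subring `R`, these are the
`k`-derivations of `R`. -/
def Preserves {K : Type u} [Field K] [Algebra k K] (R : Set K) (D : Derivation k K K) : Prop :=
  ∀ f ∈ R, D f ∈ R

/-- The rational `N`-fold 2-form `h (da ∧ db) ^ N` on `K`, as a function of two derivations. -/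
def form {K : Type u} [Field K] [Algebra k K] (N : ℕ) (h a b : K) (D₁ D₂ : Derivation k K K) : K :=
  h * (D₁ a * D₂ b - D₁ b * D₂ a) ^ N

/-- The local ring of `Spec B` at `P`, inside the fraction field. -/
def localRing {B : Type u} [CommRing B] [IsDomain B] (P : Ideal B) : Set (FractionRing B) :=
  {f | ∃ a s : B, s ∉ P ∧ f * algebraMap B (FractionRing B) s = algebraMap B (FractionRing B) a}

/-- The valuation ring `R` of the fraction field of the two-dimensional local domain `B` is the
local ring of an exceptional prime divisor over `Spec B`: a discrete valuation ring that contains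
`B`, with centre the closed point, and whose residue field is transcendental over `k` (some `t` in
`R` has `p(t)` a unit of `R` for all nonzero polynomials `p` over `k`). -/
structure IsExceptional (B : Type u) [CommRing B] [IsDomain B] [Algebra k B]
    (R : ValuationSubring (FractionRing B)) : Prop where
  le : ∀ b : B, algebraMap B (FractionRing B) b ∈ R
  centre : ∀ b : B, ¬ IsUnit b → algebraMap B (FractionRing B) b ∈ R.nonunits
  dvr : IsDiscreteValuationRing R
  residue : ∃ t ∈ R, ∀ p : Polynomial k, p ≠ 0 → Polynomial.aeval t p ∉ R.nonunits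

/-- `Spec B` (`B` a normal two-dimensional local domain) is log terminal. There is `N ≥ 1` and a
rational `N`-fold 2-form `ω = h (da ∧ db) ^ N` that generates the `N`-fold 2-forms at every point
of codimension one of `Spec B` (so `ω` is a generator of `𝒪(N K_X)`), such that `ω` vanishes to
order `> -N` along every exceptional prime divisor `R` (its discrepancy is that order divided by
`N`): for the derivations `D₁, D₂` of `R` and `π` in the maximal ideal of `R`, the element
`π ^ N ω(D₁, D₂)` lies in the maximal ideal of `R`. -/
def IsLogTerminal (B : Type u) [CommRing B] [IsDomain B] [Algebra k B] : Prop :=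
  ∃ N : ℕ, 0 < N ∧ ∃ h a b : FractionRing B,
    (∀ P : Ideal B, P.IsPrime → P ≠ ⊥ → ¬ P.IsMaximal →
      (∀ D₁ D₂ : Derivation k (FractionRing B) (FractionRing B),
        Preserves k (localRing P) D₁ → Preserves k (localRing P) D₂ →
          form k N h a b D₁ D₂ ∈ localRing P) ∧
      ∃ D₁ D₂ : Derivation k (FractionRing B) (FractionRing B),
        Preserves k (localRing P) D₁ ∧ Preserves k (localRing P) D₂ ∧
          form k N h a b D₁ D₂ ≠ 0 ∧ (form k N h a b D₁ D₂)⁻¹ ∈ localRing P) ∧
    ∀ R : ValuationSubring (FractionRing B), IsExceptional k B R →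
      ∀ D₁ D₂ : Derivation k (FractionRing B) (FractionRing B),
        Preserves k (R : Set (FractionRing B)) D₁ → Preserves k (R : Set (FractionRing B)) D₂ →
          ∀ π ∈ R.nonunits, π ^ N * form k N h a b D₁ D₂ ∈ R.nonunits

end logterminal

end Pool.Agent.T9h29.WQ
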