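import Pool.Agent.T9h29.WQ.E1

/-!
# Example E is not log terminal (piece P7)
-/

set_option autoImplicit false

namespace Pool.Agent.T9h29.WQ

open MvPowerSeries

universe u

theorem p7 (h0a : StmtP0a.{u}) (h0b : StmtP0b.{u}) (h0c : StmtP0c.{u}) (h1b : StmtP1b.{u})
    (h5 : StmtP5.{u}) (h6 : StmtP6.{u}) : StmtP7.{u} := by
  intro k _ _ _ σ hσ x y h hlt
  have h2 : (2 : A k) = 0 := two_A (k := k)
  have h2K : (2 : FractionRing (invariants σ)) = 0 := two_K (k := k)
  have hsx4 : σ (x ^ 4) = x ^ 4 := by rw [map_pow, h.sx]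
  have hz : σ (y * X 1 + x ^ 4 * X 0) = y * X 1 + x ^ 4 * X 0 := h.sz h.sy hsx4
  have hF := h.eqn
  have h5' := h5 k σ hσ x y h hz
  obtain ⟨R, hR, hxR, hqR, hqR', hdec⟩ := h6 k σ hσ x y h hz
  have hy0 : y ≠ 0 := by
    intro h0
    have hx' : x = X 0 ^ 2 := by have := h.hx; rw [h0] at this; simpa using this
    have h1 := h.hy
    rw [h0, hx'] at h1
    have h3 : (X 1 : A k) * (X 1 + X 0 ^ 8) = 0 := by linear_combination -h1
    rcases mul_eq_zero.1 h3 with h4 | h4
    · exact X_ne 1 h4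
    · have := congrArg (coeff (Finsupp.single 1 1)) h4
      rw [map_add, coeff_X, if_pos rfl, map_zero] at this
      have h8 : coeff (Finsupp.single (1 : Fin 2) 1) ((X 0 : A k) ^ 8) = 0 := by
        rw [coeff_X_pow, if_neg]
        intro h9
        have := congrArg (fun f => f 0) h9
        simp at this
      rw [h8, add_zero] at this
      exact one_ne_zero this
  have hx0 : x ≠ 0 := by
    intro h0
    have h1 := h.hx
    rw [h0] at h1
    have h3 : (X 0 : A k) * (X 0 + y) = 0 := by linear_combination -h1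
    have h4 : y = X 1 ^ 2 := by rw [h.hy, h0]; ring
    rcases mul_eq_zero.1 h3 with h5 | h5
    · exact X_ne 0 h5
    · rw [h4] at h5
      have := congrArg (coeff (Finsupp.single 0 1)) h5
      rw [map_add, coeff_X, if_pos rfl, map_zero] at this
      have h8 : coeff (Finsupp.single (0 : Fin 2) 1) ((X 1 : A k) ^ 2) = 0 := by
        rw [coeff_X_pow, if_neg]
        intro h9
        have := congrArg (fun f => f 1) h9
        simp at this
      rw [h8, add_zero] at this
      exact one_ne_zero this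
  set z := y * X 1 + x ^ 4 * X 0 with hzdef
  have cx : constantCoeff x = 0 := by rw [h.hx]; simp
  have cy : constantCoeff y = 0 := by rw [h.hy]; simp
  -- derivatives
  have h4 : (4 : A k) = 0 := by linear_combination 2 * h2
  have y0 : pderiv k 0 y = 0 := by
    have h3 := congrArg (pderiv k 0) h.hy
    rw [map_add, pd_pow, pd_mul, pd_pow, pderiv_X_of_ne (by decide)] at h3
    push_cast at h3
    linear_combination h3 + (X 1 * x ^ 3 * pderiv k 0 x) * h4
  have y1 : pderiv k 1 y = x ^ 4 := by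
    have h3 := congrArg (pderiv k 1) h.hy
    rw [map_add, pd_pow, pd_mul, pd_pow, pderiv_X_self] at h3
    push_cast at h3
    linear_combination h3 + (X 1 * x ^ 3 * pderiv k 1 x) * h4 + X 1 * h2
  have x0 : pderiv k 0 x = y := by
    have h3 := congrArg (pderiv k 0) h.hx
    rw [map_add, pd_pow, pd_mul, pderiv_X_self, y0] at h3
    push_cast at h3
    linear_combination h3 + X 0 * h2
  have x1 : pderiv k 1 x = X 0 * x ^ 4 := by
    have h3 := congrArg (pderiv k 1) h.hx
    rw [map_add, pd_pow, pd_mul, pderiv_X_of_ne (by decide), y1] at h3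
    push_cast at h3
    linear_combination h3
  have z0 : pderiv k 0 z = x ^ 4 := by
    rw [hzdef, map_add, pd_mul, pd_mul, pd_pow, pderiv_X_self, pderiv_X_of_ne (by decide), y0]
    push_cast
    linear_combination (X 0 * x ^ 3 * pderiv k 0 x) * h4
  have z1 : pderiv k 1 z = x ^ 4 * X 1 + y := by
    rw [hzdef, map_add, pd_mul, pd_mul, pd_pow, pderiv_X_self, pderiv_X_of_ne (by decide), y1]
    push_cast
    linear_combination (X 0 * x ^ 3 * pderiv k 1 x) * h4
  have bxy : br 1 x y = x ^ 4 * y := by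
    rw [br, x0, y0, x1, y1]; ring
  have bxz : br 1 x z = x ^ 4 * z + y ^ 2 := by
    rw [br, x0, z0, x1, z1, hzdef]
    linear_combination (-(X 0 * x ^ 8)) * h2
  have byz : br 1 y z = -x ^ 8 := by
    rw [br, y0, z0, y1, z1]; ring
  have bsymm : ∀ f g : A k, br 1 f g = - br 1 g f := by
    intro f g; rw [br, br]; ring
  have heq : ∀ f g, σ (br 1 f g) = br 1 (σ f) (σ g) := by
    apply h0a k σ 1
    rw [map_one, h.su, h.sv, br, map_add, map_add, map_add, map_add, pd_pow, pd_pow, y0, y1,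
      pderiv_X_self, pderiv_X_self, pderiv_X_of_ne (by decide), pderiv_X_of_ne (by decide)]
    push_cast
    linear_combination (x ^ 3 * pderiv k 1 x - x ^ 7 * pderiv k 0 x) * h4
  -- the fraction field
  obtain ⟨Dx, hDx⟩ := h0b k σ 1 heq x h.sx
  obtain ⟨Dy, hDy⟩ := h0b k σ 1 heq y h.sy
  obtain ⟨Dz, hDz⟩ := h0b k σ 1 heq z hz
  have pDx := ham_preserves h0c σ 1 x heq h.sx Dx hDx
  have pDy := ham_preserves h0c σ 1 y heq h.sy Dy hDy
  have pDz := ham_preserves h0c σ 1 z heq hz Dz hDz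
  set xB : invariants σ := ⟨x, h.sx⟩ with hxB
  set yB : invariants σ := ⟨y, h.sy⟩ with hyB
  set zB : invariants σ := ⟨z, hz⟩ with hzB
  set ι := algebraMap (invariants σ) (FractionRing (invariants σ)) with hι
  have hinj : Function.Injective ι := IsFractionRing.injective _ _
  set x' := ι xB with hx'
  set y' := ι yB with hy'
  set z' := ι zB with hz'
  set s := z' / (x' * y') with hs
  change ∀ p : FractionRing (invariants σ), ∃ a₀ a₁ a₂ a₃ : FractionRing (invariants σ),
    p = a₀ ^ 2 + a₁ ^ 2 * x' + a₂ ^ 2 * s + a₃ ^ 2 * (x' * s) at h5'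
  change x' ∈ R.nonunits at hxR
  change x' ^ 2 / y' ∈ R at hqR
  change x' ^ 2 / y' ∉ R.nonunits at hqR'
  change ∀ a₀ a₁ a₂ a₃ : FractionRing (invariants σ),
    a₀ ^ 2 + a₁ ^ 2 * x' + a₂ ^ 2 * s + a₃ ^ 2 * (x' * s) ∈ R →
      a₀ ∈ R ∧ a₁ ∈ R ∧ a₂ ∈ R ∧ a₃ ∈ R at hdec
  have hFB : zB ^ 2 + yB * xB ^ 4 * zB + yB ^ 2 * yB + (xB ^ 4) ^ 2 * xB = 0 := Subtype.ext hF
  have hFK : z' ^ 2 + y' * x' ^ 4 * z' + y' ^ 2 * y' + (x' ^ 4) ^ 2 * x' = 0 := by
    rw [← map_zero ι, ← hFB]; simp only [map_add, map_mul, map_pow]; rfl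
  have hxB0 : xB ≠ 0 := fun h3 => hx0 (congrArg Subtype.val h3)
  have hyB0 : yB ≠ 0 := fun h3 => hy0 (congrArg Subtype.val h3)
  have hxK0 : x' ≠ 0 := by rw [hx', Ne, ← map_zero ι]; exact fun h3 => hxB0 (hinj h3)
  have hyK0 : y' ≠ 0 := by rw [hy', Ne, ← map_zero ι]; exact fun h3 => hyB0 (hinj h3)
  have hzs : z' = s * x' * y' := by rw [hs]; field_simp
  -- values of the Hamiltonian derivations
  have vyy : Dy y' = 0 := by
    have h3 : br 1 y y = 0 := by rw [br]; ring
    have h4 := hDy y h.sy (by rw [h3, map_zero])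
    change Dy y' = _ at h4
    rw [h4, toK_eq_zero]; exact h3
  have vxx : Dx x' = 0 := by
    have h3 : br 1 x x = 0 := by rw [br]; ring
    have h4 := hDx x h.sx (by rw [h3, map_zero])
    change Dx x' = _ at h4
    rw [h4, toK_eq_zero]; exact h3
  have vzz : Dz z' = 0 := by
    have h3 : br 1 z z = 0 := by rw [br]; ring
    have h4 := hDz z hz (by rw [h3, map_zero])
    change Dz z' = _ at h4
    rw [h4, toK_eq_zero]; exact h3
  have vxy : Dy x' = x' ^ 4 * y' := by
    have h3 : br 1 x y = ((xB ^ 4 * yB : invariants σ) : A k) := bxy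
    have h4 := hDy x h.sx (by rw [heq, h.sx, h.sy])
    change Dy x' = _ at h4
    rw [h4, hx', hy', ← map_pow, ← map_mul]; unfold toK; congr 1; exact Subtype.ext h3
  have vyx : Dx y' = -(x' ^ 4 * y') := by
    have h3 : br 1 y x = ((-(xB ^ 4 * yB) : invariants σ) : A k) := by rw [bsymm, bxy]; rfl
    have h4 := hDx y h.sy (by rw [heq, h.sx, h.sy])
    change Dx y' = _ at h4
    rw [h4, hx', hy', ← map_pow, ← map_mul, ← map_neg]
    unfold toK; congr 1; exact Subtype.ext h3
  have vxz : Dz x' = x' ^ 4 * z' + y' ^ 2 := by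
    have h3 : br 1 x z = ((xB ^ 4 * zB + yB ^ 2 : invariants σ) : A k) := bxz
    have h4 := hDz x h.sx (by rw [heq, h.sx, hz])
    change Dz x' = _ at h4
    rw [h4, hx', hy', hz', ← map_pow, ← map_mul, ← map_pow, ← map_add]
    unfold toK; congr 1; exact Subtype.ext h3
  have vzx : Dx z' = -(x' ^ 4 * z' + y' ^ 2) := by
    have h3 : br 1 z x = ((-(xB ^ 4 * zB + yB ^ 2) : invariants σ) : A k) := by
      rw [bsymm, bxz]; rfl
    have h4 := hDx z hz (by rw [heq, h.sx, hz])
    change Dx z' = _ at h4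
    rw [h4, hx', hy', hz', ← map_pow, ← map_mul, ← map_pow, ← map_add, ← map_neg]
    unfold toK; congr 1; exact Subtype.ext h3
  have vyz : Dz y' = -x' ^ 8 := by
    have h3 : br 1 y z = ((-xB ^ 8 : invariants σ) : A k) := byz
    have h4 := hDz y h.sy (by rw [heq, h.sy, hz])
    change Dz y' = _ at h4
    rw [h4, hx', ← map_pow, ← map_neg]; unfold toK; congr 1; exact Subtype.ext h3
  have vzy : Dy z' = x' ^ 8 := by
    have h3 : br 1 z y = ((xB ^ 8 : invariants σ) : A k) := by rw [bsymm, byz, neg_neg]; rfl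
    have h4 := hDy z hz (by rw [heq, h.sy, hz])
    change Dy z' = _ at h4
    rw [h4, hx', ← map_pow]; unfold toK; congr 1; exact Subtype.ext h3
  have h4K : (4 : FractionRing (invariants σ)) = 0 := by linear_combination 2 * h2K
  -- differentiating the equations
  have hdF : ∀ D : Derivation k (FractionRing (invariants σ)) (FractionRing (invariants σ)),
      x' ^ 4 * y' * D z' + (x' ^ 4 * z' + y' ^ 2) * D y' + x' ^ 8 * D x' = 0 := by
    intro D
    have h3 := congrArg D hFK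
    simp only [map_add, Derivation.leibniz, Derivation.leibniz_pow, smul_eq_mul, map_zero,
      nsmul_eq_mul] at h3
    push_cast at h3
    linear_combination h3 - (z' * D z' + y' ^ 2 * D y' + 2 * y' * x' ^ 3 * z' * D x' +
      4 * x' ^ 8 * D x') * h2K
  have hdz : ∀ D : Derivation k (FractionRing (invariants σ)) (FractionRing (invariants σ)),
      D z' = s * x' * D y' + s * y' * D x' + x' * y' * D s := by
    intro D
    conv_lhs => rw [hzs]
    simp only [Derivation.leibniz, smul_eq_mul]; ring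
  -- relations between the 2-forms
  have hJ1 : ∀ D₁ D₂ : Derivation k (FractionRing (invariants σ)) (FractionRing (invariants σ)),
      J D₁ D₂ x' y' = -(x' ^ 5 * J D₁ D₂ x' s) := by
    intro D₁ D₂
    have h3 : y' ^ 2 * (J D₁ D₂ x' y' + x' ^ 5 * J D₁ D₂ x' s) = 0 := by
      unfold J
      linear_combination D₁ x' * hdF D₂ - D₂ x' * hdF D₁ -
        x' ^ 4 * y' * (D₁ x' * hdz D₂ - D₂ x' * hdz D₁) -
        x' ^ 4 * z' * (D₁ x' * D₂ y' - D₁ y' * D₂ x') * h2K +
        x' ^ 4 * (D₁ x' * D₂ y' - D₁ y' * D₂ x') * hzs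
    exact eq_neg_of_add_eq_zero_left ((mul_eq_zero.1 h3).resolve_left (pow_ne_zero 2 hyK0))
  set ω : Derivation k (FractionRing (invariants σ)) (FractionRing (invariants σ)) →
      Derivation k (FractionRing (invariants σ)) (FractionRing (invariants σ)) →
      FractionRing (invariants σ) := fun D₁ D₂ => J D₁ D₂ x' s * x' / y' with hω
  have hω' : ∀ D₁ D₂, J D₁ D₂ x' s * x' = ω D₁ D₂ * y' := by
    intro D₁ D₂; rw [hω]; field_simp
  have hA1 : ∀ D₁ D₂ : Derivation k (FractionRing (invariants σ)) (FractionRing (invariants σ)),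
      J D₁ D₂ y' z' = -(x' ^ 8 * ω D₁ D₂) := by
    intro D₁ D₂
    have h3 : x' ^ 4 * y' * J D₁ D₂ y' z' = x' ^ 8 * J D₁ D₂ x' y' := by
      unfold J
      linear_combination D₁ y' * hdF D₂ - D₂ y' * hdF D₁
    apply mul_left_cancel₀ (mul_ne_zero (pow_ne_zero 4 hxK0) hyK0)
    rw [h3, hJ1]
    linear_combination (-x' ^ 12) * hω' D₁ D₂
  have hA2 : ∀ D₁ D₂ : Derivation k (FractionRing (invariants σ)) (FractionRing (invariants σ)),
      J D₁ D₂ x' z' = (x' ^ 4 * z' + y' ^ 2) * ω D₁ D₂ := by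
    intro D₁ D₂
    have h3 : x' ^ 4 * y' * J D₁ D₂ x' z' = -((x' ^ 4 * z' + y' ^ 2) * J D₁ D₂ x' y') := by
      unfold J
      linear_combination D₁ x' * hdF D₂ - D₂ x' * hdF D₁
    apply mul_left_cancel₀ (mul_ne_zero (pow_ne_zero 4 hxK0) hyK0)
    rw [h3, hJ1]
    linear_combination (x' ^ 4 * (x' ^ 4 * z' + y' ^ 2)) * hω' D₁ D₂
  -- `s` is in `R`
  have hqv : R.valuation (x' ^ 2 / y') = 1 := by
    apply le_antisymm
    · rwa [R.valuation_le_one_iff]
    · rw [R.mem_nonunits_iff] at hqR'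
      exact not_lt.1 hqR'
  have hxv : R.valuation x' < 1 := R.mem_nonunits_iff.1 hxR
  have hsR : s ∈ R := by
    rw [← R.valuation_le_one_iff]
    by_contra hcon
    push Not at hcon
    have h3 : s ^ 2 = -(x' ^ 3 * s + (x' ^ 2 / y')⁻¹ + x' ^ 3 * (x' ^ 2 / y') ^ 2) := by
      have h4 : (x' * y') ^ 2 * (s ^ 2 + (x' ^ 3 * s + (x' ^ 2 / y')⁻¹ +
          x' ^ 3 * (x' ^ 2 / y') ^ 2)) = 0 := by
        have h5 : (x' * y') ^ 2 * (x' ^ 2 / y')⁻¹ = y' ^ 3 := by field_simp
        have h6 : (x' * y') ^ 2 * (x' ^ 3 * (x' ^ 2 / y') ^ 2) = x' ^ 9 := by field_simp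
        rw [hzs] at hFK
        linear_combination hFK + h5 + h6
      exact eq_neg_of_add_eq_zero_left ((mul_eq_zero.1 h4).resolve_left
        (pow_ne_zero 2 (mul_ne_zero hxK0 hyK0)))
    have h4 : R.valuation s ^ 2 ≤ R.valuation s := by
      rw [← map_pow, h3, Valuation.map_neg]
      refine (R.valuation.map_add _ _).trans (max_le ((R.valuation.map_add _ _).trans
        (max_le ?_ ?_)) ?_)
      · rw [map_mul, map_pow]
        calc R.valuation x' ^ 3 * R.valuation s ≤ 1 * R.valuation s := by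
              gcongr; exact pow_le_one' hxv.le 3
          _ = R.valuation s := one_mul _
      · rw [map_inv₀, hqv, inv_one]; exact hcon.le
      · rw [map_mul, map_pow, map_pow, hqv, one_pow, mul_one]
        exact (pow_le_one' hxv.le 3).trans hcon.le
    have h5 : R.valuation s < R.valuation s ^ 2 := by
      rw [pow_two]
      calc R.valuation s = 1 * R.valuation s := (one_mul _).symm
        _ < R.valuation s * R.valuation s := mul_lt_mul_of_pos_right hcon (zero_lt_one.trans hcon)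
    exact absurd h4 (not_le.2 h5)
  have hxR' : x' ∈ R := by rw [← R.valuation_le_one_iff]; exact hxv.le
  -- partial derivatives
  have hpd : ∀ p : FractionRing (invariants σ), ∃ p₁ p₂ : FractionRing (invariants σ),
      (p ∈ R → p₁ ∈ R ∧ p₂ ∈ R) ∧ ∀ D : Derivation k (FractionRing (invariants σ))
        (FractionRing (invariants σ)), D p = p₁ * D x' + p₂ * D s := by
    intro p
    obtain ⟨a₀, a₁, a₂, a₃, hp⟩ := h5' p
    refine ⟨a₁ ^ 2 + a₃ ^ 2 * s, a₂ ^ 2 + a₃ ^ 2 * x', ?_, ?_⟩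
    · intro hpR
      rw [hp] at hpR
      obtain ⟨h0, h1, h2, h3⟩ := hdec _ _ _ _ hpR
      exact ⟨R.add_mem _ _ (pow_mem h1 2) (R.mul_mem _ _ (pow_mem h3 2) hsR),
        R.add_mem _ _ (pow_mem h2 2) (R.mul_mem _ _ (pow_mem h3 2) hxR')⟩
    · intro D
      conv_lhs => rw [hp]
      simp only [map_add, Derivation.leibniz, Derivation.leibniz_pow, smul_eq_mul, nsmul_eq_mul]
      push_cast
      linear_combination (a₀ * D a₀ + a₁ * x' * D a₁ + a₂ * s * D a₂ + a₃ * x' * s * D a₃) * h2K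
  obtain ⟨N, hN, η, a, b, hgen, hexc⟩ := hlt
  obtain ⟨a₁, a₂, -, ha⟩ := hpd a
  obtain ⟨b₁, b₂, -, hb⟩ := hpd b
  set W := a₁ * b₂ - a₂ * b₁ with hW
  have hform : ∀ D₁ D₂, form k N η a b D₁ D₂ = η * (W * J D₁ D₂ x' s) ^ N := by
    intro D₁ D₂
    rw [form, ha, hb, ha, hb, hW, J]
    congr 2
    ring
  set g := η * (W * y' / x') ^ N with hg
  have hform2 : ∀ D₁ D₂, form k N η a b D₁ D₂ = g * ω D₁ D₂ ^ N := by
    intro D₁ D₂
    rw [hform, hg, hω, mul_assoc, ← mul_pow]
    congr 2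
    field_simp
  -- values of `ω` on Hamiltonian derivations
  have ω1 : ω Dy Dz = -x' ^ 8 := by
    have h3 := hA1 Dy Dz
    rw [J, vyy, vzz, vzy, vyz] at h3
    apply mul_left_cancel₀ (pow_ne_zero 8 hxK0)
    linear_combination h3
  have ω2 : x' ^ 4 * z' + y' ^ 2 ≠ 0 → ω Dz Dx = -(x' ^ 4 * z' + y' ^ 2) := by
    intro ht0
    have h3 := hA2 Dz Dx
    rw [J, vxz, vzx, vzz, vxx] at h3
    apply mul_left_cancel₀ ht0
    linear_combination -h3
  have hloc : ∀ P : Ideal (invariants σ), P.IsPrime → P ≠ ⊥ → ¬ P.IsMaximal →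
      (∃ D₁ D₂ : Derivation k (FractionRing (invariants σ)) (FractionRing (invariants σ)),
        Preserves k (localRing P) D₁ ∧ Preserves k (localRing P) D₂ ∧
          ∃ t : invariants σ, t ∉ P ∧ ω D₁ D₂ = -ι t) ∧
      ∀ D₁ D₂ : Derivation k (FractionRing (invariants σ)) (FractionRing (invariants σ)),
        Preserves k (localRing P) D₁ → Preserves k (localRing P) D₂ →
          ω D₁ D₂ ∈ localRing P := by
    intro P hP hP0 hPm
    by_cases hxP : xB ∈ P
    · have hyP : yB ∉ P := fun hyP => hPm (Artin.maximal h1b hσ h (c := 0) (d := 1)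
        (c' := x ^ 3) (d' := 0) (by ring) (by ring) P hP hxP hyP)
      set tB : invariants σ := xB ^ 4 * zB + yB ^ 2 with htB
      have htP : tB ∉ P := by
        intro h3
        have h4 : yB ^ 2 ∈ P := by
          have h5 : xB ^ 4 * zB ∈ P :=
            P.mul_mem_right _ (Ideal.pow_mem_of_mem P hxP 4 (by norm_num))
          have h6 := P.sub_mem h3 h5
          rwa [htB, add_sub_cancel_left] at h6
        exact hyP (hP.mem_of_pow_mem 2 h4)
      have ht : ι tB = x' ^ 4 * z' + y' ^ 2 := by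
        rw [htB, map_add, map_mul, map_pow, map_pow]
      have ht0 : x' ^ 4 * z' + y' ^ 2 ≠ 0 := by
        rw [← ht, Ne, ← map_zero ι]
        exact fun h3 => htP (by rw [hinj h3]; exact P.zero_mem)
      refine ⟨⟨Dz, Dx, pDz P hP, pDx P hP, tB, htP, by rw [ht]; exact ω2 ht0⟩, ?_⟩
      intro D₁ D₂ h₁ h₂
      have h3 : ω D₁ D₂ = J D₁ D₂ x' z' / ι tB := by
        rw [hA2, ht, mul_div_cancel_left₀ _ ht0]
      rw [h3]
      apply loc_div hP _ htP
      exact loc_sub hP (loc_mul hP (h₁ _ (loc_of hP _)) (h₂ _ (loc_of hP _)))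
        (loc_mul hP (h₁ _ (loc_of hP _)) (h₂ _ (loc_of hP _)))
    · have hx8 : xB ^ 8 ∉ P := fun h3 => hxP (hP.mem_of_pow_mem 8 h3)
      have ht : ι (xB ^ 8) = x' ^ 8 := by rw [map_pow]
      have ht0 : x' ^ 8 ≠ 0 := pow_ne_zero 8 hxK0
      refine ⟨⟨Dy, Dz, pDy P hP, pDz P hP, xB ^ 8, hx8, by rw [ht]; exact ω1⟩, ?_⟩
      intro D₁ D₂ h₁ h₂
      have h3 : ω D₁ D₂ = -(J D₁ D₂ y' z' / ι (xB ^ 8)) := by
        rw [hA1, ht, neg_div, neg_neg, mul_div_cancel_left₀ _ ht0]
      rw [h3]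
      apply loc_neg
      apply loc_div hP _ hx8
      exact loc_sub hP (loc_mul hP (h₁ _ (loc_of hP _)) (h₂ _ (loc_of hP _)))
        (loc_mul hP (h₁ _ (loc_of hP _)) (h₂ _ (loc_of hP _)))
  have hgP : ∀ P : Ideal (invariants σ), P.IsPrime → P ≠ ⊥ → ¬ P.IsMaximal →
      g ∈ localRing P := by
    intro P hP hP0 hPm
    obtain ⟨⟨D₁, D₂, h₁, h₂, t, ht, hωt⟩, -⟩ := hloc P hP hP0 hPm
    have h3 := (hgen P hP hP0 hPm).1 D₁ D₂ h₁ h₂
    have ht1 : (-t) ^ N ∉ P := fun h5 => ht (by simpa using hP.mem_of_pow_mem N h5)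
    have h4 : ι ((-t) ^ N) = (-ι t) ^ N := by rw [map_pow, map_neg]
    have ht1' : ι ((-t) ^ N) ≠ 0 := by
      rw [Ne, ← map_zero ι]
      exact fun h3 => ht1 (by rw [hinj h3]; exact P.zero_mem)
    rw [hform2, hωt, ← h4] at h3
    have h5 := loc_div hP h3 ht1
    rwa [mul_div_cancel_right₀ _ ht1'] at h5
  have hgP' : ∀ P : Ideal (invariants σ), P.IsPrime → P ≠ ⊥ → ¬ P.IsMaximal →
      g ≠ 0 ∧ g⁻¹ ∈ localRing P := by
    intro P hP hP0 hPm
    obtain ⟨D₁, D₂, h₁, h₂, hne, hinv⟩ := (hgen P hP hP0 hPm).2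
    rw [hform2] at hne hinv
    have hg0 : g ≠ 0 := left_ne_zero_of_mul hne
    have hω0 : ω D₁ D₂ ^ N ≠ 0 := right_ne_zero_of_mul hne
    refine ⟨hg0, ?_⟩
    have h3 := loc_mul hP hinv (loc_pow hP ((hloc P hP hP0 hPm).2 D₁ D₂ h₁ h₂) N)
    have h4 : ∀ c d : FractionRing (invariants σ), d ≠ 0 → c⁻¹ = (c * d)⁻¹ * d := by
      intro c d hd
      rw [mul_inv, mul_assoc, inv_mul_cancel₀ hd, mul_one]
    rw [h4 g _ hω0]; exact h3
  obtain ⟨P, hP, hxP, hyP⟩ := exists_codim_one h
  have hP0 : P ≠ ⊥ := fun h3 => hxB0 (by rw [h3] at hxP; exact hxP)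
  have hPm : ¬ P.IsMaximal := fun h3 => hyP (mem_of_isMaximal σ P h3 _ cy)
  have hg0 := (hgP' P hP hP0 hPm).1
  obtain ⟨e, he⟩ := mem_range_of_loc h hx0 (c := 0) (d := 1) (c' := x ^ 3) (d' := 0)
    (by ring) (by ring) cx cy g hgP
  obtain ⟨e', he'⟩ := mem_range_of_loc h hx0 (c := 0) (d := 1) (c' := x ^ 3) (d' := 0)
    (by ring) (by ring) cx cy g⁻¹ (fun P a b c => (hgP' P a b c).2)
  have hgv : R.valuation g = 1 := by
    apply le_antisymm
    · rw [R.valuation_le_one_iff, he]; exact hR.le e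
    · have h3 : R.valuation g⁻¹ ≤ 1 := by
        rw [R.valuation_le_one_iff, he']; exact hR.le e'
      rw [map_inv₀] at h3
      exact (inv_le_one₀ (by rw [zero_lt_iff, Ne, R.valuation.zero_iff]; exact hg0)).1 h3
  -- the two derivations of `R`
  have vxs : Dx s = -(y' / x') := by
    have h3 := hdz Dx
    rw [vzx, vyx, vxx, hzs] at h3
    apply mul_left_cancel₀ (mul_ne_zero hxK0 hyK0)
    have h4 : x' * y' * -(y' / x') = -y' ^ 2 := by field_simp
    rw [h4]
    linear_combination -h3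
  set Ds : Derivation k (FractionRing (invariants σ)) (FractionRing (invariants σ)) :=
    (-(x' / y')) • Dx with hDs
  have vsx : Ds x' = 0 := by rw [hDs, Derivation.smul_apply, vxx, smul_zero]
  have vss : Ds s = 1 := by
    rw [hDs, Derivation.smul_apply, vxs, smul_eq_mul]; field_simp
  set DX : Derivation k (FractionRing (invariants σ)) (FractionRing (invariants σ)) :=
    (x' ^ 4 * y')⁻¹ • (Dy - (Dy s) • Ds) with hDX
  have vXx : DX x' = 1 := by
    rw [hDX, Derivation.smul_apply, Derivation.sub_apply, Derivation.smul_apply, vsx, smul_zero,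
      sub_zero, vxy, smul_eq_mul, inv_mul_cancel₀ (mul_ne_zero (pow_ne_zero 4 hxK0) hyK0)]
  have vXs : DX s = 0 := by
    rw [hDX, Derivation.smul_apply, Derivation.sub_apply, Derivation.smul_apply, vss, smul_eq_mul,
      smul_eq_mul, mul_one, sub_self, mul_zero]
  have pX : Preserves k (R : Set (FractionRing (invariants σ))) DX := by
    intro p hp
    obtain ⟨p₁, p₂, hpR, hD⟩ := hpd p
    rw [hD, vXx, vXs, mul_one, mul_zero, add_zero]
    exact (hpR hp).1
  have pS : Preserves k (R : Set (FractionRing (invariants σ))) Ds := by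
    intro p hp
    obtain ⟨p₁, p₂, hpR, hD⟩ := hpd p
    rw [hD, vsx, vss, mul_one, mul_zero, zero_add]
    exact (hpR hp).2
  have hfin := hexc R hR DX Ds pX pS x' hxR
  have h3 : x' ^ N * form k N η a b DX Ds = g * (x' ^ 2 / y') ^ N := by
    have h4 : ω DX Ds = x' / y' := by
      rw [hω]; simp only [J]; rw [vXx, vss, vXs, vsx]; ring
    rw [hform2, h4, mul_left_comm, ← mul_pow]
    congr 2
    ring
  rw [h3, R.mem_nonunits_iff, map_mul, map_pow, hgv, hqv, one_pow, mul_one] at hfin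
  exact lt_irrefl _ hfin

end Pool.Agent.T9h29.WQ
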