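import Pool.Agent.T9h29.WQ.D

/-!
# Invariants as an intersection of local rings (for piece P7)
-/

set_option autoImplicit false

namespace Pool.Agent.T9h29.WQ

open MvPowerSeries

universe u

section

variable {k : Type u} [Field k]

/-- `v ^ n α = u ^ n β` implies `u ^ n ∣ α` -/
lemma dvd_of_mul_eq {α β : A k} (n : ℕ) (h : X 1 ^ n * α = X 0 ^ n * β) : X 0 ^ n ∣ α := by
  classical
  rw [X_pow_dvd_iff]
  intro m hm
  have h1 : coeff (m + Finsupp.single 1 n) (X 0 ^ n * β) = 0 := by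
    apply (X_pow_dvd_iff (s := (0 : Fin 2)) (n := n) (φ := X 0 ^ n * β)).1 (dvd_mul_right _ _)
    simpa using hm
  rw [← h] at h1
  rw [X_pow_eq, add_comm, coeff_add_monomial_mul, one_mul] at h1
  exact h1

/-- an element of a maximal ideal of the invariants -/
lemma mem_of_isMaximal (σ : A k ≃ₐ[k] A k) (P : Ideal (invariants σ)) (hP : P.IsMaximal)
    (f : invariants σ) (hf : constantCoeff (f : A k) = 0) : f ∈ P := by
  by_contra hcon
  have h1 : P ⊔ Ideal.span {f} = ⊤ := by
    apply hP.1.2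
    rw [lt_iff_le_and_ne]
    refine ⟨le_sup_left, fun h2 => hcon ?_⟩
    rw [h2]; exact Ideal.mem_sup_right (Ideal.mem_span_singleton_self f)
  have h2 : (1 : invariants σ) ∈ P ⊔ Ideal.span {f} := by rw [h1]; trivial
  rw [Submodule.mem_sup] at h2
  obtain ⟨p, hp, q, hq, hpq⟩ := h2
  rw [Ideal.mem_span_singleton] at hq
  obtain ⟨c, hc⟩ := hq
  have h3 : (p : A k) = 1 - f * c := by
    have : p = 1 - f * c := by rw [← hpq, ← hc]; ring
    rw [this]; rfl
  have h4 : IsUnit (p : A k) := by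
    rw [MvPowerSeries.isUnit_iff_constantCoeff, h3, map_sub, map_one, map_mul, hf, zero_mul,
      sub_zero]
    exact isUnit_one
  exact hP.ne_top (Ideal.eq_top_of_isUnit_mem _ hp (isUnit_inv σ p.2 h4))

/-- an element of all local rings at points of codimension one is an invariant -/
lemma mem_range_of_loc {σ : A k ≃ₐ[k] A k} {x y a b c d c' d' : A k}
    (h : Artin σ x y a b) (hx0 : x ≠ 0)
    (hc : a = x * c + y * d) (hd : b = x * c' + y * d')
    (cx : constantCoeff x = 0) (cy : constantCoeff y = 0)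
    (g : FractionRing (invariants σ))
    (hg : ∀ P : Ideal (invariants σ), P.IsPrime → P ≠ ⊥ → ¬ P.IsMaximal → g ∈ localRing P) :
    ∃ e : invariants σ, g = algebraMap _ _ e := by
  set ι := algebraMap (invariants σ) (FractionRing (invariants σ)) with hι
  have hinj : Function.Injective ι := IsFractionRing.injective _ _
  set xB : invariants σ := ⟨x, h.sx⟩ with hxB
  set yB : invariants σ := ⟨y, h.sy⟩ with hyB
  -- the denominators
  let I : Ideal (invariants σ) :=
    { carrier := {s | ∃ e, g * ι s = ι e}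
      add_mem' := by
        rintro s t ⟨e, he⟩ ⟨f, hf⟩
        exact ⟨e + f, by rw [map_add, map_add, mul_add, he, hf]⟩
      zero_mem' := ⟨0, by simp⟩
      smul_mem' := by
        rintro r s ⟨e, he⟩
        exact ⟨r * e, by rw [smul_eq_mul, map_mul, map_mul, ← he]; ring⟩ }
  have hI0 : ∃ s ∈ I, s ≠ 0 := by
    obtain ⟨e, s, hs, hes⟩ := IsFractionRing.div_surjective (A := invariants σ) g
    have hs0 : s ≠ 0 := nonZeroDivisors.ne_zero hs
    refine ⟨s, ⟨e, ?_⟩, hs0⟩
    have : ι s ≠ 0 := by rw [Ne, ← map_zero ι]; exact fun h3 => hs0 (hinj h3)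
    rw [← hes]
    exact div_mul_cancel₀ _ this
  have hrad : ∀ f : invariants σ, constantCoeff (f : A k) = 0 → f ∈ I.radical := by
    intro f hf
    rw [Ideal.radical_eq_sInf, Submodule.mem_sInf]
    rintro P ⟨hIP, hP⟩
    by_cases hm : Ideal.IsMaximal P
    · exact mem_of_isMaximal σ P hm f hf
    · have hP0 : P ≠ ⊥ := by
        rintro rfl
        obtain ⟨s, hs, hs0⟩ := hI0
        exact hs0 (hIP hs)
      obtain ⟨e, s, hs, hes⟩ := hg P hP hP0 hm
      exact absurd (hIP ⟨e, hes⟩) hs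
  obtain ⟨r₁, h₁⟩ := hrad xB cx
  obtain ⟨r₂, h₂⟩ := hrad yB cy
  obtain ⟨r, hr1, hr2⟩ : ∃ r, xB ^ r ∈ I ∧ yB ^ r ∈ I :=
    ⟨r₁ + r₂, by rw [pow_add]; exact I.mul_mem_right _ h₁,
      by rw [pow_add]; exact I.mul_mem_left _ h₂⟩
  obtain ⟨c₁, hc₁⟩ := hr1
  obtain ⟨c₂, hc₂⟩ := hr2
  have h12 : (c₁ : A k) * y ^ r = c₂ * x ^ r := by
    have h3 : c₁ * yB ^ r = c₂ * xB ^ r := by
      apply hinj
      rw [map_mul, map_mul, ← hc₁, ← hc₂]; ring
    exact congrArg Subtype.val h3
  -- the ideal of `A`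
  let I' : Ideal (A k) :=
    { carrier := {s | x ^ r ∣ s * c₁}
      add_mem' := by
        intro s t hs ht
        change x ^ r ∣ (s + t) * c₁
        rw [add_mul]; exact dvd_add hs ht
      zero_mem' := by change x ^ r ∣ 0 * _; rw [zero_mul]; exact dvd_zero _
      smul_mem' := by
        intro q s hs
        change x ^ r ∣ (q • s) * c₁
        rw [smul_eq_mul, mul_assoc]; exact Dvd.dvd.mul_left hs q }
  have hxI : x ^ r ∈ I' := dvd_mul_right _ _
  have hyI : y ^ r ∈ I' := ⟨c₂, by rw [mul_comm, h12, mul_comm]⟩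
  have hprime : ∀ Q : Ideal (A k), I' ≤ Q → Q.IsPrime → X 0 ∈ Q ∧ X 1 ∈ Q := by
    intro Q hQ hQp
    have h3 : x ∈ Q := hQp.mem_of_pow_mem r (hQ hxI)
    have h4 : y ∈ Q := hQp.mem_of_pow_mem r (hQ hyI)
    have h5 : a ∈ Q := by
      rw [hc]; exact Q.add_mem (Q.mul_mem_right _ h3) (Q.mul_mem_right _ h4)
    have h6 : b ∈ Q := by
      rw [hd]; exact Q.add_mem (Q.mul_mem_right _ h3) (Q.mul_mem_right _ h4)
    constructor
    · apply hQp.mem_of_pow_mem 2
      have : X 0 ^ 2 = x - a * X 0 := by rw [h.hx]; ring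
      rw [this]; exact Q.sub_mem h3 (Q.mul_mem_right _ h5)
    · apply hQp.mem_of_pow_mem 2
      have : X 1 ^ 2 = y - b * X 1 := by rw [h.hy]; ring
      rw [this]; exact Q.sub_mem h4 (Q.mul_mem_right _ h6)
  have hu : X 0 ∈ I'.radical := by
    rw [Ideal.radical_eq_sInf, Submodule.mem_sInf]
    rintro Q ⟨hQ, hQp⟩
    exact (hprime Q hQ hQp).1
  have hv : X 1 ∈ I'.radical := by
    rw [Ideal.radical_eq_sInf, Submodule.mem_sInf]
    rintro Q ⟨hQ, hQp⟩
    exact (hprime Q hQ hQp).2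
  obtain ⟨n₁, hn₁⟩ := hu
  obtain ⟨n₂, hn₂⟩ := hv
  obtain ⟨n, hn1, hn2⟩ : ∃ n, X 0 ^ n ∈ I' ∧ X 1 ^ n ∈ I' :=
    ⟨n₁ + n₂, by rw [pow_add]; exact I'.mul_mem_right _ hn₁,
      by rw [pow_add]; exact I'.mul_mem_left _ hn₂⟩
  obtain ⟨α, hα⟩ := hn1
  obtain ⟨β, hβ⟩ := hn2
  have hxr : x ^ r ≠ 0 := pow_ne_zero r hx0
  have h7 : X 1 ^ n * α = X 0 ^ n * β := by
    apply mul_left_cancel₀ hxr
    calc x ^ r * (X 1 ^ n * α) = X 1 ^ n * (x ^ r * α) := by ring
      _ = X 0 ^ n * (x ^ r * β) := by rw [← hα, ← hβ]; ring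
      _ = x ^ r * (X 0 ^ n * β) := by ring
  obtain ⟨α', hα'⟩ := dvd_of_mul_eq n h7
  have h8 : (c₁ : A k) = x ^ r * α' := by
    apply mul_left_cancel₀ (pow_ne_zero n (X_ne (k := k) 0))
    rw [hα, hα']; ring
  have h9 : σ α' = α' := by
    have h10 := congrArg σ h8
    rw [map_mul, map_pow, h.sx] at h10
    have h11 : σ (c₁ : A k) = c₁ := c₁.2
    rw [h11, h8] at h10
    exact (mul_left_cancel₀ hxr h10).symm
  refine ⟨⟨α', h9⟩, ?_⟩
  have hxr' : ι (xB ^ r) ≠ 0 := by
    rw [Ne, ← map_zero ι]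
    intro h3
    exact hxr (congrArg Subtype.val (hinj h3))
  apply mul_right_cancel₀ hxr'
  rw [hc₁, ← map_mul]
  congr 1
  apply Subtype.ext
  change (c₁ : A k) = α' * x ^ r
  rw [h8, mul_comm]

/-- a point of codimension one -/
lemma exists_codim_one {σ : A k ≃ₐ[k] A k} {x y : A k} (h : Artin σ x y y (x ^ 4)) :
    ∃ P : Ideal (invariants σ), P.IsPrime ∧ (⟨x, h.sx⟩ : invariants σ) ∈ P ∧
      (⟨y, h.sy⟩ : invariants σ) ∉ P := by
  set w : Fin 2 → ℕ := ![1, 0] with hw
  let P : Ideal (invariants σ) :=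
    { carrier := {f | 1 ≤ weightedOrder w (f : A k)}
      add_mem' := by
        intro f g hf hg
        exact (le_min hf hg).trans (min_weightedOrder_le_add w)
      zero_mem' := by
        change 1 ≤ weightedOrder w (0 : A k)
        simp
      smul_mem' := by
        intro c f hf
        change 1 ≤ weightedOrder w ((c : A k) * (f : A k))
        rw [weightedOrder_mul]
        exact le_add_left hf }
  have hX : (1 : ℕ∞) ≤ weightedOrder w (X 0 : A k) := by
    apply le_weightedOrder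
    intro d hd
    rw [coeff_X, if_neg]
    rintro rfl
    rw [Finsupp.weight_single] at hd
    simp [hw] at hd
  have hx : (1 : ℕ∞) ≤ weightedOrder w x := by
    have : x = X 0 * (X 0 + y) := by have := h.hx; linear_combination this
    rw [this, weightedOrder_mul]
    exact le_add_right hX
  refine ⟨P, ?_, hx, ?_⟩
  · refine Ideal.IsPrime.mk ?_ ?_
    · rw [Ideal.ne_top_iff_one]
      intro h1
      change 1 ≤ weightedOrder w (1 : A k) at h1
      rw [weightedOrder_one] at h1
      exact absurd h1 (by norm_num)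
    · intro f g hfg
      change 1 ≤ weightedOrder w ((f : A k) * (g : A k)) at hfg
      rw [weightedOrder_mul] at hfg
      by_contra hcon
      push Not at hcon
      obtain ⟨h1, h2⟩ := hcon
      have h3 : weightedOrder w (f : A k) < 1 := not_le.1 h1
      have h4 : weightedOrder w (g : A k) < 1 := not_le.1 h2
      rw [Order.lt_one_iff] at h3 h4
      rw [h3, h4] at hfg
      exact absurd hfg (by norm_num)
  · intro h1
    change (1 : ℕ∞) ≤ weightedOrder w y at h1
    have h2 : coeff (Finsupp.single 1 2) y = 0 := by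
      apply coeff_eq_zero_of_lt_weightedOrder w
      refine lt_of_lt_of_le ?_ h1
      rw [Finsupp.weight_single]
      simp [hw]
    have h3 : coeff (Finsupp.single 1 2) (x ^ 4 * X 1) = 0 := by
      apply coeff_eq_zero_of_lt_weightedOrder w
      rw [weightedOrder_mul, pow_succ, weightedOrder_mul]
      refine lt_of_lt_of_le ?_ (le_add_right (le_add_left hx))
      rw [Finsupp.weight_single]
      simp [hw]
    rw [h.hy, map_add, h3, add_zero, coeff_X_pow, if_pos rfl] at h2
    exact one_ne_zero h2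

end

end Pool.Agent.T9h29.WQ
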