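import Pool.Agent.T9h29.WQ.Spec

/-!
# Local rings in the fraction field; basic facts on the invariants
-/

set_option autoImplicit false

namespace Pool.Agent.T9h29.WQ

open MvPowerSeries

universe u

section loc

variable {B : Type u} [CommRing B] [IsDomain B] {P : Ideal B}

lemma loc_of (hP : P.IsPrime) (b : B) : algebraMap B (FractionRing B) b ∈ localRing P :=
  ⟨b, 1, fun h => hP.ne_top ((Ideal.eq_top_iff_one P).2 h), by simp⟩

lemma loc_mul (hP : P.IsPrime) {f g : FractionRing B} (hf : f ∈ localRing P)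
    (hg : g ∈ localRing P) : f * g ∈ localRing P := by
  obtain ⟨a, s, hs, h⟩ := hf
  obtain ⟨a', s', hs', h'⟩ := hg
  refine ⟨a * a', s * s', fun h1 => (hP.mem_or_mem h1).elim hs hs', ?_⟩
  rw [map_mul, map_mul, ← h, ← h']; ring

lemma loc_add (hP : P.IsPrime) {f g : FractionRing B} (hf : f ∈ localRing P)
    (hg : g ∈ localRing P) : f + g ∈ localRing P := by
  obtain ⟨a, s, hs, h⟩ := hf
  obtain ⟨a', s', hs', h'⟩ := hg
  refine ⟨a * s' + a' * s, s * s', fun h1 => (hP.mem_or_mem h1).elim hs hs', ?_⟩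
  rw [map_mul, map_add, map_mul, map_mul, ← h, ← h']; ring

lemma loc_neg {f : FractionRing B} (hf : f ∈ localRing P) : -f ∈ localRing P := by
  obtain ⟨a, s, hs, h⟩ := hf
  exact ⟨-a, s, hs, by rw [map_neg, ← h]; ring⟩

lemma loc_sub (hP : P.IsPrime) {f g : FractionRing B} (hf : f ∈ localRing P)
    (hg : g ∈ localRing P) : f - g ∈ localRing P := by
  rw [sub_eq_add_neg]; exact loc_add hP hf (loc_neg hg)

lemma loc_pow (hP : P.IsPrime) {f : FractionRing B} (hf : f ∈ localRing P) (n : ℕ) :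
    f ^ n ∈ localRing P := by
  induction n with
  | zero => rw [pow_zero, ← map_one (algebraMap B (FractionRing B))]; exact loc_of hP 1
  | succ n ih => rw [pow_succ]; exact loc_mul hP ih hf

lemma loc_inv (hP : P.IsPrime) {s : B} (hs : s ∉ P) :
    (algebraMap B (FractionRing B) s)⁻¹ ∈ localRing P := by
  refine ⟨1, s, hs, ?_⟩
  have h0 : s ≠ 0 := fun h => hs (h ▸ P.zero_mem)
  have h1 : algebraMap B (FractionRing B) s ≠ 0 := by
    rw [Ne, IsFractionRing.to_map_eq_zero_iff]; exact h0
  rw [inv_mul_cancel₀ h1, map_one]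

lemma loc_div (hP : P.IsPrime) {f : FractionRing B} (hf : f ∈ localRing P) {s : B} (hs : s ∉ P) :
    f / algebraMap B (FractionRing B) s ∈ localRing P := by
  rw [div_eq_mul_inv]; exact loc_mul hP hf (loc_inv hP hs)

end loc

section inv

variable {k : Type u} [Field k] (σ : A k ≃ₐ[k] A k)

lemma mem_inv {f : A k} : f ∈ invariants σ ↔ σ f = f := Iff.rfl

lemma toK_add {f g : A k} (hf : σ f = f) (hg : σ g = g) (h : σ (f + g) = f + g) :
    toK σ (f + g) h = toK σ f hf + toK σ g hg := by
  unfold toK; rw [← map_add]; rfl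

lemma toK_mul {f g : A k} (hf : σ f = f) (hg : σ g = g) (h : σ (f * g) = f * g) :
    toK σ (f * g) h = toK σ f hf * toK σ g hg := by
  unfold toK; rw [← map_mul]; rfl

lemma toK_pow {f : A k} (hf : σ f = f) (n : ℕ) (h : σ (f ^ n) = f ^ n) :
    toK σ (f ^ n) h = toK σ f hf ^ n := by
  unfold toK; rw [← map_pow]; rfl

lemma toK_eq_zero {f : A k} (hf : σ f = f) : toK σ f hf = 0 ↔ f = 0 := by
  unfold toK
  rw [IsFractionRing.to_map_eq_zero_iff]
  exact ⟨fun h => congrArg Subtype.val h, fun h => Subtype.ext h⟩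

/-- an invariant that is a unit of `A` is a unit of the invariants -/
lemma isUnit_inv {f : A k} (hf : σ f = f) (hu : IsUnit f) :
    IsUnit (⟨f, hf⟩ : invariants σ) := by
  obtain ⟨g, hg⟩ := hu.exists_right_inv
  have hg' : σ g = g := by
    have h1 : f * σ g = 1 := by
      have := congrArg σ hg
      rwa [map_mul, hf, map_one] at this
    have h2 : f * (σ g - g) = 0 := by rw [mul_sub, h1, hg, sub_self]
    rcases mul_eq_zero.1 h2 with h3 | h3
    · rw [h3, zero_mul] at hg; exact absurd hg zero_ne_one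
    · exact sub_eq_zero.1 h3
  exact IsUnit.of_mul_eq_one ⟨g, hg'⟩ (Subtype.ext hg)

end inv

end Pool.Agent.T9h29.WQ
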