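import Pool.Agent.T9h29.WQ.Def

/-!
# Wild quotients: the exact statements of the pieces

Characteristic 2. Artin's form of an involution: `σ u = u + a`, `σ v = v + b`, with
`x = u ^ 2 + a u`, `y = v ^ 2 + b v` and `a, b` invariant; `z = a v + b u`.
Example D: `a = x`, `b = y` (log terminal). Example E: `a = y`, `b = x ^ 4` (not log terminal).
-/

set_option autoImplicit false

namespace Pool.Agent.T9h29.WQ

open MvPowerSeries

universe u

variable {k : Type u} [Field k]

/-- Artin's form of the involution `σ` -/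
structure Artin (σ : A k ≃ₐ[k] A k) (x y a b : A k) : Prop where
  su : σ (X 0) = X 0 + a
  sv : σ (X 1) = X 1 + b
  sx : σ x = x
  sy : σ y = y
  hx : x = X 0 ^ 2 + a * X 0
  hy : y = X 1 ^ 2 + b * X 1

/-- the bracket `w (f_u g_v - f_v g_u)` -/
noncomputable def br (w f g : A k) : A k :=
  w * (pderiv k 0 f * pderiv k 1 g - pderiv k 1 f * pderiv k 0 g)

/-- `f` as an element of the fraction field of the invariants -/
noncomputable def toK (σ : A k ≃ₐ[k] A k) (f : A k) (hf : σ f = f) :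
    FractionRing (invariants σ) :=
  algebraMap (invariants σ) (FractionRing (invariants σ)) ⟨f, hf⟩

/-! ### P1: power series

P1a: coefficientwise: `f₀` has coefficients `(coeff (2 m) f) ^ (1/2)` etc.; `expand`,
`map_frobenius_expand` in `Mathlib/RingTheory/MvPowerSeries/Expand.lean` help. P1b is elementary. -/

/-- P1a (`k` perfect of characteristic 2) -/
def StmtP1a : Prop := ∀ (k : Type u) [Field k] [CharP k 2] [IsAlgClosed k] (f : A k),
  ∃ f₀ f₁ f₂ f₃ : A k, f = f₀ ^ 2 + f₁ ^ 2 * X 0 + f₂ ^ 2 * X 1 + f₃ ^ 2 * (X 0 * X 1)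

/-- P1b -/
def StmtP1b : Prop := ∀ (k : Type u) [Field k],
  mm k = Ideal.span {X 0, X 1} ∧ (∀ f : A k, f ∈ mm k ↔ constantCoeff f = 0) ∧
  ∀ (n : ℕ) (f : A k), f ∈ mm k ^ n → ∀ m : Fin 2 →₀ ℕ, m.degree < n → coeff m f = 0

/-! ### P2: the numerical invariants -/

/-- P2 -/
def StmtP2 : Prop := ∀ (k : Type u) [Field k] (σ : A k ≃ₐ[k] A k),
  σ (X 0) - X 0 ∈ mm k ^ 2 → σ (X 1) - X 1 ∈ mm k ^ 2 → σ (X 0) - X 0 ∉ mm k ^ 3 →
    HasInvariants σ 2 0

/-! ### P0: Hamiltonian derivations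

P0a: for fixed `g`, both sides are derivations in `f` from `A` to `A` viewed as a module over `A`
through `σ` (or apply `σ.symm` to the right side to get an honest derivation of `A`); a derivation
that kills `X 0`, `X 1` is `0` by P1a (squares are killed). The same in `g`. For `f, g ∈ {X 0, X 1}`
it is the hypothesis (`br w f f = 0`, `br w g f = - br w f g`).
P0b: `a ↦ br w a b` is a derivation of `A` that maps `invariants σ` into itself; extend it to the
fraction field (P0d). P0c: quotient rule. P0d: `Algebra.FormallyEtale` (see `exists_derivation` in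
`Pool/Agent/H248R5/Bert.lean`) or by hand. -/

/-- P0a -/
def StmtP0a : Prop := ∀ (k : Type u) [Field k] [CharP k 2] [IsAlgClosed k] (σ : A k ≃ₐ[k] A k)
  (w : A k), br w (σ (X 0)) (σ (X 1)) = σ w → ∀ f g, σ (br w f g) = br w (σ f) (σ g)

/-- P0b -/
def StmtP0b : Prop := ∀ (k : Type u) [Field k] (σ : A k ≃ₐ[k] A k)
  (w : A k) (hw : ∀ f g, σ (br w f g) = br w (σ f) (σ g)) (b : A k) (hb : σ b = b),
    ∃ D : Derivation k (FractionRing (invariants σ)) (FractionRing (invariants σ)),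
      ∀ (a : A k) (ha : σ a = a) (hc : σ (br w a b) = br w a b),
        D (toK σ a ha) = toK σ (br w a b) hc

/-- P0c -/
def StmtP0c : Prop := ∀ (k : Type u) [Field k] (B : Type u) [CommRing B] [IsDomain B] [Algebra k B]
  (D : Derivation k (FractionRing B) (FractionRing B)),
  (∀ a : B, ∃ c : B, D (algebraMap B _ a) = algebraMap B _ c) →
    ∀ P : Ideal B, P.IsPrime → Preserves k (localRing P) D

/-- P0d: a derivation extends to the fraction field -/
def StmtP0d : Prop := ∀ (k : Type u) [Field k] (B : Type u) [CommRing B] [IsDomain B] [Algebra k B]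
  (D : Derivation k B B), ∃ D' : Derivation k (FractionRing B) (FractionRing B),
    ∀ a : B, D' (algebraMap B _ a) = algebraMap B _ (D a)

/-! ### P3: example D

P3a: `σ` = substitution `u ↦ u / (1 + u)`, `v ↦ v / (1 + v)`; `x = u σ(u)`, `y = v σ(v)`. -/

/-- P3a -/
def StmtP3a : Prop := ∀ (k : Type u) [Field k] [CharP k 2],
  ∃ (σ : A k ≃ₐ[k] A k) (x y : A k), Artin σ x y x y ∧ orderOf σ = 2

/-- P3b -/
def StmtP3b : Prop := ∀ (k : Type u) [Field k] [CharP k 2] [IsAlgClosed k]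
  (σ : A k ≃ₐ[k] A k) (_ : ∀ f, σ (σ f) = f) (x y : A k), Artin σ x y x y →
    IsLogTerminal k (invariants σ)

/-! ### P4: example E

P4: existence of `x` with `x = u ^ 2 + u v ^ 2 + u v x ^ 4`: e.g. `x = S c(T S ^ 3)` with
`S = u ^ 2 + u v ^ 2`, `T = u v` and `c ∈ k[[Z]]`, `c = 1 + Z c ^ 4` (coefficients `1` at
`(4 ^ i - 1) / 3`, or by recursion), or any other fixed point argument. Then `y = v ^ 2 + x ^ 4 v`,
`σ` = substitution `u ↦ u + y`, `v ↦ v + x ^ 4`; `σ x = x`, `σ y = y` because `(x, y)` and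
`(σ x, σ y)` both solve the system `X = U ^ 2 + U Y`, `Y = V ^ 2 + V X ^ 4` for `U = u + y`,
`V = v + x ^ 4` (characteristic 2) and the solution with constant terms `0` is unique:
`X - X' = U (Y - Y')`, `Y - Y' = V (X ^ 4 - X' ^ 4)`. Then `σ (σ u) = u`, `σ (σ v) = v`. -/

/-- P4 -/
def StmtP4 : Prop := ∀ (k : Type u) [Field k] [CharP k 2],
  ∃ (σ : A k ≃ₐ[k] A k) (x y : A k), Artin σ x y y (x ^ 4) ∧ orderOf σ = 2

/-! Proof of P5, in `L = FractionRing (A k)` with `σ` extended to `L`, `K` = fixed field of `σ` in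
`L` = fraction field of the invariants (`f / g = f σ(g) / (g σ(g))`). Every `p` in `L` is
`p₀² + p₁² u + p₂² v + p₃² u v` (P1a: `f / g = f g / g²`), uniquely (derivations `∂_u`, `∂_v`).
Put `X = x²` (so `b = X²`), `τ = u / y` (`σ τ = τ + 1`, `τ² + τ = ρ := x / y² ∈ K`), `ζ = z / y ∈ K`;
`u = y τ`, `v = ζ + X² τ`. If `σ p = p` and `qᵢ = σ pᵢ`, comparing coefficients gives
`p₃ = q₃`, `p₂ = q₁ X + q₂ + q₃ (v + X²)`, `p₁ = q₁ + q₃ X`, `p₀ = q₀ + q₁ v + q₂ X`. So
`g₁ := p₁ + X p₃ τ`, `κ := X g₁ + p₃ ζ`, `g₂ := p₂ + κ τ`,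
`λ := g₁ ζ + X³ p₃ ρ + X g₂ + X² g₁`, `g₀ := p₀ + λ τ` are all fixed by `σ`, and
`p = g₀² + ((λ + κ X) / y)² x + (κ x / y)² s + g₂² (x s)`, `s = z / (x y)`
(the coefficient of `τ` vanishes because `p` is fixed). -/

/-- P5: `x` and `s = z / (x y)` form a 2-basis of the fraction field of the invariants -/
def StmtP5 : Prop := ∀ (k : Type u) [Field k] [CharP k 2] [IsAlgClosed k]
  (σ : A k ≃ₐ[k] A k) (_ : ∀ f, σ (σ f) = f) (x y : A k) (h : Artin σ x y y (x ^ 4))
  (hz : σ (y * X 1 + x ^ 4 * X 0) = y * X 1 + x ^ 4 * X 0) (p : FractionRing (invariants σ)),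
  ∃ a₀ a₁ a₂ a₃ : FractionRing (invariants σ),
    p = a₀ ^ 2 + a₁ ^ 2 * toK σ x h.sx +
      a₂ ^ 2 * (toK σ _ hz / (toK σ x h.sx * toK σ y h.sy)) +
      a₃ ^ 2 * (toK σ x h.sx * (toK σ _ hz / (toK σ x h.sx * toK σ y h.sy)))

/-! Proof of P6. Let `F = RatFunc k` with generator `s₀`. The substitution `u ↦ t`, `v ↦ s₀ t²`
is an injective homomorphism `θ : A k → F[[t]]` (the order of `θ f` is the weighted order of `f` for
the weights 1, 2), which extends to `θ : L → F((t))` (`HahnSeries`, `order`, `leadingCoeff` are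
multiplicative). `θ x = t² + …`, `θ y = s₀² t⁴ + …`, `θ z = s₀³ t⁶ + …`, so `s = z / (x y)` has order
`0` and leading coefficient `s₀`. Let `R = {f ∈ K : order (θ f) ≥ 0}`.
(1) `order (θ (σ f - f)) ≥ order (θ f) + 1` for `f ∈ A`, (on monomials, then with `coeff_subst`), so
`order (θ (σ f)) = order (θ f)` with the same leading coefficient, for all `f ∈ L`, `f ≠ 0`, and
`order (θ (σ f - f)) ≥ order (θ f)`.
(2) All `f ∈ K`, `f ≠ 0` have even order: otherwise (multiply by a power of `x`) some `π ∈ K` has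
order 1; then for every `g ∈ L`, `g ≠ 0` there is `c ∈ K` with `order (θ (g - c)) > order (θ g)`
(`c = π ^ n P(s) / Q(s)`, where `P(s₀) / Q(s₀)` is a quotient of leading coefficients), so there is
`h ∈ K` with `order (θ (u - h)) ≥ 5`; but `σ (u - h) - (u - h) = σ u - u = y` has order `4`.
(3) So `R` is a discrete valuation ring with uniformizer `x`, and for `a₀, …, a₃ ∈ K` the orders of
`a₀²` and `a₂² s` are `0` mod `4`, of `a₁² x` and `a₃² x s` are `2` mod `4`, and
`order (a₀² + a₂² s) = min` because `α₀² + α₂² s₀ ≠ 0` in `F`; hence the last claim.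
(4) non-units of the invariants are in `mm k`, so they have positive order; `p(s)` for `p ≠ 0` in
`k[T]` has leading coefficient `p(s₀)`. -/

/-- P6: the exceptional divisor with discrepancy `-1` -/
def StmtP6 : Prop := ∀ (k : Type u) [Field k] [CharP k 2] [IsAlgClosed k]
  (σ : A k ≃ₐ[k] A k) (_ : ∀ f, σ (σ f) = f) (x y : A k) (h : Artin σ x y y (x ^ 4))
  (hz : σ (y * X 1 + x ^ 4 * X 0) = y * X 1 + x ^ 4 * X 0),
  ∃ R : ValuationSubring (FractionRing (invariants σ)), IsExceptional k (invariants σ) R ∧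
    toK σ x h.sx ∈ R.nonunits ∧
    toK σ x h.sx ^ 2 / toK σ y h.sy ∈ R ∧ toK σ x h.sx ^ 2 / toK σ y h.sy ∉ R.nonunits ∧
    ∀ a₀ a₁ a₂ a₃ : FractionRing (invariants σ),
      a₀ ^ 2 + a₁ ^ 2 * toK σ x h.sx +
        a₂ ^ 2 * (toK σ _ hz / (toK σ x h.sx * toK σ y h.sy)) +
        a₃ ^ 2 * (toK σ x h.sx * (toK σ _ hz / (toK σ x h.sx * toK σ y h.sy))) ∈ R →
      a₀ ∈ R ∧ a₁ ∈ R ∧ a₂ ∈ R ∧ a₃ ∈ R

/-- P7 -/
def StmtP7 : Prop := ∀ (k : Type u) [Field k] [CharP k 2] [IsAlgClosed k]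
  (σ : A k ≃ₐ[k] A k) (_ : ∀ f, σ (σ f) = f) (x y : A k), Artin σ x y y (x ^ 4) →
    ¬ IsLogTerminal k (invariants σ)

end Pool.Agent.T9h29.WQ
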